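import Mathlib

/-!
# Root-linear (Cartier) maps on polynomial rings and the stable ideal `T(f)`
-/

namespace Pool.Agent.FReg

open MvPolynomial

section Root

variable {K : Type*} [Field K] {p : ℕ} [Fact p.Prime] [CharP K p]

/-- For every nonzero `a` there is an additive map `θ : K → K` with `θ (b ^ q c) = b θ c` and
`θ a = 1`, where `q = p ^ e`. -/
lemma exists_root_linear (e : ℕ) {a : K} (ha : a ≠ 0) :
    ∃ θ : K →+ K, (∀ b c : K, θ (b ^ p ^ e * c) = b * θ c) ∧ θ a = 1 := by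
  let F := (iterateFrobenius K p e).fieldRange
  obtain ⟨φ, hφ⟩ : ∃ φ : Module.Dual F K, φ a ≠ 0 := by
    by_contra hcon
    push Not at hcon
    exact ha ((Module.forall_dual_apply_eq_zero_iff F a).1 hcon)
  let ε : K ≃+* F := (iterateFrobenius K p e).rangeRestrictFieldEquiv
  have hε : ∀ b : K, ((ε b : F) : K) = b ^ p ^ e := by
    intro b
    rw [← iterateFrobenius_def]
    rfl
  let θ₀ : K →+ K := (ε.symm.toAddMonoidHom).comp φ.toAddMonoidHom
  have h0 : ∀ b c : K, θ₀ (b ^ p ^ e * c) = b * θ₀ c := by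
    intro b c
    have h1 : b ^ p ^ e * c = (ε b) • c := by
      rw [← hε b]; rfl
    change ε.symm (φ (b ^ p ^ e * c)) = b * ε.symm (φ c)
    rw [h1, map_smul, smul_eq_mul, map_mul, RingEquiv.symm_apply_apply]
  have h1 : θ₀ a ≠ 0 := by
    intro h
    apply hφ
    have h2 : ε.symm (φ a) = 0 := h
    exact (map_eq_zero_iff _ ε.symm.injective).1 h2
  refine ⟨(AddMonoidHom.mulLeft (θ₀ a)⁻¹).comp θ₀, ?_, ?_⟩
  · intro b c
    change (θ₀ a)⁻¹ * θ₀ (b ^ p ^ e * c) = b * ((θ₀ a)⁻¹ * θ₀ c)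
    rw [h0]; ring
  · change (θ₀ a)⁻¹ * θ₀ a = 1
    exact inv_mul_cancel₀ h1

end Root

section Poly

variable {σ : Type*} {K : Type*} [Field K]

/-- The polynomials all of whose monomials have some exponent `≥ q`. -/
def Mq (σ K : Type*) [Field K] (q : ℕ) : Ideal (MvPolynomial σ K) where
  carrier := {φ | ∀ m : σ →₀ ℕ, (∀ i, m i < q) → coeff m φ = 0}
  zero_mem' := by
    intro m _
    simp
  add_mem' := by
    intro a b ha hb m hm
    rw [coeff_add, ha m hm, hb m hm, add_zero]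
  smul_mem' := by
    classical
    intro c x hx m hm
    rw [smul_eq_mul, coeff_mul]
    refine Finset.sum_eq_zero fun y hy => ?_
    rw [Finset.HasAntidiagonal.mem_antidiagonal] at hy
    have : coeff y.2 x = 0 := by
      apply hx
      intro i
      have h1 := hm i
      rw [← hy, Finsupp.add_apply] at h1
      omega
    rw [this, mul_zero]

lemma mem_Mq {q : ℕ} {φ : MvPolynomial σ K} :
    φ ∈ Mq σ K q ↔ ∀ m : σ →₀ ℕ, (∀ i, m i < q) → coeff m φ = 0 := Iff.rfl

lemma X_pow_mem_Mq {q : ℕ} (i : σ) : (X i : MvPolynomial σ K) ^ q ∈ Mq σ K q := by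
  classical
  intro m hm
  rw [coeff_X_pow, if_neg]
  rintro rfl
  have := hm i
  simp at this

lemma monomial_mem_Mq {q : ℕ} {m : σ →₀ ℕ} {i : σ} (h : q ≤ m i) (a : K) :
    monomial m a ∈ Mq σ K q := by
  classical
  intro m' hm'
  rw [coeff_monomial, if_neg]
  rintro rfl
  have := hm' i
  omega

/-- `π` is additive and `π (g ^ q h) = g π h`. -/
def RootLinear (q : ℕ) (π : MvPolynomial σ K →+ MvPolynomial σ K) : Prop :=
  ∀ g h, π (g ^ q * h) = g * π h

/-- A root-linear map sends `M_{q q'}` into `M_{q'}`. -/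
lemma RootLinear.map_Mq {q q' : ℕ} {π : MvPolynomial σ K →+ MvPolynomial σ K}
    (hπ : RootLinear q π) {φ : MvPolynomial σ K} (hφ : φ ∈ Mq σ K (q * q')) :
    π φ ∈ Mq σ K q' := by
  classical
  rw [φ.as_sum, map_sum]
  refine Ideal.sum_mem _ fun m hm => ?_
  have h1 : ¬ ∀ i, m i < q * q' := by
    intro hcon
    exact (mem_support_iff.1 hm) (hφ m hcon)
  push Not at h1
  obtain ⟨i, hi⟩ := h1
  have h2 : monomial m (coeff m φ) = ((X i) ^ q') ^ q *
      monomial (m - Finsupp.single i (q * q')) (coeff m φ) := by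
    have h3 : m = Finsupp.single i (q * q') + (m - Finsupp.single i (q * q')) := by
      ext j
      by_cases hj : j = i
      · subst hj
        simp
        omega
      · simp [Ne.symm hj]
    rw [← pow_mul, mul_comm q' q, X_pow_eq_monomial, monomial_mul, one_mul, ← h3]
  rw [h2, hπ]
  exact Ideal.mul_mem_right _ _ (X_pow_mem_Mq i)

/-- The extraction map `π_{α,θ}`: the coefficient of `δ` in `π φ` is `θ` of the coefficient of
`α + q δ` in `φ`. -/
noncomputable def extract (q : ℕ) (hq : 0 < q) (α : σ →₀ ℕ) (θ : K →+ K) :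
    MvPolynomial σ K →+ MvPolynomial σ K where
  toFun φ := AddMonoidAlgebra.ofCoeff (Finsupp.mapRange θ (map_zero θ)
    (Finsupp.comapDomain (fun δ : σ →₀ ℕ => α + q • δ) (AddMonoidAlgebra.coeff φ) (by
      intro a _ b _ hab
      have h1 : q • a = q • b := add_left_cancel hab
      ext i
      have h2 := DFunLike.congr_fun h1 i
      simp at h2
      omega)))
  map_zero' := by
    apply MvPolynomial.ext
    intro m
    change θ (coeff (α + q • m) (0 : MvPolynomial σ K)) = 0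
    simp
  map_add' φ ψ := by
    apply MvPolynomial.ext
    intro m
    change θ (coeff (α + q • m) (φ + ψ)) =
      θ (coeff (α + q • m) φ) + θ (coeff (α + q • m) ψ)
    simp

@[simp]
lemma coeff_extract (q : ℕ) (hq : 0 < q) (α : σ →₀ ℕ) (θ : K →+ K) (φ : MvPolynomial σ K)
    (δ : σ →₀ ℕ) : coeff δ (extract q hq α θ φ) = θ (coeff (α + q • δ) φ) := rfl

lemma extract_rootLinear {p : ℕ} [Fact p.Prime] [CharP K p] (e : ℕ) (hq : 0 < p ^ e)
    {α : σ →₀ ℕ} (hα : ∀ i, α i < p ^ e) {θ : K →+ K}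
    (hθ : ∀ b c : K, θ (b ^ p ^ e * c) = b * θ c) :
    RootLinear (p ^ e) (extract (p ^ e) hq α θ) := by
  classical
  intro g h
  induction g using MvPolynomial.induction_on' with
  | monomial a r =>
    apply MvPolynomial.ext
    intro δ
    rw [coeff_extract, monomial_pow, coeff_monomial_mul', coeff_monomial_mul', coeff_extract]
    have h1 : (p ^ e • a ≤ α + p ^ e • δ) ↔ a ≤ δ := by
      constructor
      · intro h2 i
        have h3 := h2 i
        have h4 := hα i
        simp only [Finsupp.coe_smul, Pi.smul_apply, smul_eq_mul, Finsupp.coe_add,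
          Pi.add_apply] at h3
        have h5 : p ^ e * a i < p ^ e * (δ i + 1) := by
          rw [mul_add, mul_one]; omega
        have := Nat.lt_of_mul_lt_mul_left h5
        omega
      · intro h2 i
        have h3 := h2 i
        simp only [Finsupp.coe_smul, Pi.smul_apply, smul_eq_mul, Finsupp.coe_add,
          Pi.add_apply]
        have := Nat.mul_le_mul_left (p ^ e) h3
        omega
    by_cases h2 : a ≤ δ
    · rw [if_pos (h1.2 h2), if_pos h2, hθ]
      congr 3
      ext i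
      have h3 := h2 i
      have := Nat.mul_le_mul_left (p ^ e) h3
      simp only [Finsupp.coe_smul, Finsupp.coe_tsub, Pi.sub_apply, Pi.smul_apply, smul_eq_mul,
        Finsupp.coe_add, Pi.add_apply, Nat.mul_sub]
      omega
    · rw [if_neg (fun h => h2 (h1.1 h)), if_neg h2, map_zero]
  | add g₁ g₂ h1 h2 =>
    rw [add_pow_char_pow, add_mul, map_add, h1, h2, add_mul]

/-! ### The ideal `T(f)` -/

/-- `c ∈ T(f)` iff `c f ^ (q - 1) ∈ M_q` for all large `q = p ^ e`. -/
def TT (p : ℕ) [Fact p.Prime] (f : MvPolynomial σ K) : Ideal (MvPolynomial σ K) where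
  carrier := {c | ∃ e₀ : ℕ, ∀ e, e₀ ≤ e → c * f ^ (p ^ e - 1) ∈ Mq σ K (p ^ e)}
  zero_mem' := ⟨0, fun e _ => by rw [zero_mul]; exact Ideal.zero_mem _⟩
  add_mem' := by
    rintro a b ⟨e₁, h1⟩ ⟨e₂, h2⟩
    refine ⟨max e₁ e₂, fun e he => ?_⟩
    rw [add_mul]
    exact Ideal.add_mem _ (h1 e (le_trans (le_max_left _ _) he))
      (h2 e (le_trans (le_max_right _ _) he))
  smul_mem' := by
    rintro c x ⟨e₁, h1⟩
    refine ⟨e₁, fun e he => ?_⟩
    rw [smul_eq_mul, mul_assoc]
    exact Ideal.mul_mem_left _ _ (h1 e he)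

variable {p : ℕ} [Fact p.Prime]

lemma mem_TT {f c : MvPolynomial σ K} :
    c ∈ TT p f ↔ ∃ e₀ : ℕ, ∀ e, e₀ ≤ e → c * f ^ (p ^ e - 1) ∈ Mq σ K (p ^ e) := Iff.rfl

lemma pow_sub_one_split {q q' : ℕ} (hq : 0 < q) (hq' : 0 < q') :
    q * q' - 1 = (q - 1) + q * (q' - 1) := by
  obtain ⟨a, rfl⟩ : ∃ a, q = a + 1 := ⟨q - 1, by omega⟩
  obtain ⟨b, rfl⟩ : ∃ b, q' = b + 1 := ⟨q' - 1, by omega⟩
  simp only [Nat.add_sub_cancel]
  have : (a + 1) * (b + 1) = a + (a + 1) * b + 1 := by ring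
  omega

/-- `T(f)` is stable under the Cartier maps `c ↦ π (c f ^ (q - 1))`. -/
lemma TT_stable {f c : MvPolynomial σ K} (hc : c ∈ TT p f) (e : ℕ)
    {π : MvPolynomial σ K →+ MvPolynomial σ K} (hπ : RootLinear (p ^ e) π) :
    π (c * f ^ (p ^ e - 1)) ∈ TT p f := by
  obtain ⟨e₀, h⟩ := hc
  have hp : 0 < p := (Fact.out : p.Prime).pos
  refine ⟨e₀, fun e' he' => ?_⟩
  have h1 : π (c * f ^ (p ^ e - 1)) * f ^ (p ^ e' - 1) =
      π (c * f ^ (p ^ (e + e') - 1)) := by
    rw [mul_comm, ← hπ]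
    congr 1
    rw [pow_add, pow_sub_one_split (pow_pos hp e) (pow_pos hp e'), pow_add, ← pow_mul,
      mul_comm (p ^ e' - 1) (p ^ e)]
    ring
  rw [h1]
  apply hπ.map_Mq
  rw [← pow_add]
  exact h _ (by omega)

/-- `T(f)` is stable under taking weighted homogeneous components. -/
lemma TT_component {M : Type*} [AddCommGroup M] {w : σ → M} {f c : MvPolynomial σ K} {m₀ : M}
    (hf : IsWeightedHomogeneous w f m₀) (hc : c ∈ TT p f) (m : M) :
    weightedHomogeneousComponent w m c ∈ TT p f := by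
  classical
  obtain ⟨e₀, h⟩ := hc
  refine ⟨e₀, fun e he d hd => ?_⟩
  have hfq : IsWeightedHomogeneous w (f ^ (p ^ e - 1)) ((p ^ e - 1) • m₀) := hf.pow _
  have key := h e he d hd
  rw [coeff_mul] at key ⊢
  by_cases hdw : Finsupp.weight w d = m + (p ^ e - 1) • m₀
  · rw [← key]
    refine Finset.sum_congr rfl fun x hx => ?_
    rw [Finset.HasAntidiagonal.mem_antidiagonal] at hx
    rw [coeff_weightedHomogeneousComponent]
    by_cases hx2 : coeff x.2 (f ^ (p ^ e - 1)) = 0
    · rw [hx2, mul_zero, mul_zero]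
    · have h2 : Finsupp.weight w x.2 = (p ^ e - 1) • m₀ := hfq hx2
      rw [if_pos]
      rw [← hx, map_add, h2] at hdw
      exact add_right_cancel hdw
  · refine Finset.sum_eq_zero fun x hx => ?_
    rw [Finset.HasAntidiagonal.mem_antidiagonal] at hx
    rw [coeff_weightedHomogeneousComponent]
    by_cases hx2 : coeff x.2 (f ^ (p ^ e - 1)) = 0
    · rw [hx2, mul_zero]
    · have h2 : Finsupp.weight w x.2 = (p ^ e - 1) • m₀ := hfq hx2
      rw [if_neg, zero_mul]
      intro h3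
      apply hdw
      rw [← hx, map_add, h2, h3]

/-- `g ^ q ∈ M_q` if `g` has no constant term. -/
lemma pow_mem_Mq [CharP K p] {g : MvPolynomial σ K} (hg : constantCoeff g = 0) (e : ℕ) :
    g ^ p ^ e ∈ Mq σ K (p ^ e) := by
  classical
  have hp : 0 < p := (Fact.out : p.Prime).pos
  rw [show g ^ p ^ e = (∑ v ∈ g.support, monomial v (coeff v g)) ^ p ^ e by rw [← g.as_sum]]
  rw [sum_pow_char_pow]
  refine Ideal.sum_mem _ fun m hm => ?_
  have hm0 : m ≠ 0 := by
    rintro rfl
    exact (mem_support_iff.1 hm) hg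
  obtain ⟨i, hi⟩ := Finsupp.ne_iff.1 hm0
  rw [monomial_pow]
  apply monomial_mem_Mq (i := i)
  simp only [Finsupp.coe_smul, Pi.smul_apply, smul_eq_mul]
  exact Nat.le_mul_of_pos_right _ (Nat.pos_of_ne_zero hi)

/-- Every divisor of `f` without constant term lies in `T(f)`. -/
lemma dvd_mem_TT [CharP K p] {f g : MvPolynomial σ K} (hg : constantCoeff g = 0) (hgf : g ∣ f) :
    g ∈ TT p f := by
  obtain ⟨h, rfl⟩ := hgf
  refine ⟨0, fun e _ => ?_⟩
  have hp : 0 < p := (Fact.out : p.Prime).pos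
  have h1 : g * (g * h) ^ (p ^ e - 1) = g ^ p ^ e * h ^ (p ^ e - 1) := by
    rw [mul_pow, ← mul_assoc, ← pow_succ', Nat.sub_add_cancel (pow_pos hp e)]
  rw [h1]
  exact Ideal.mul_mem_right _ _ (pow_mem_Mq hg e)

end Poly

end Pool.Agent.FReg
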