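import Pool.Agent.FReg.Defs
import Pool.Agent.FReg.Cartier

/-!
# Homogeneity and symmetry of `P(X)`
-/

namespace Pool.Agent.FReg

open MvPolynomial

variable {K : Type*} [Field K]

/-- Weights of the entries of powers of the generic matrix. -/
lemma pow_isWeightedHomogeneous {M : Type*} [AddCommMonoid M] {n : ℕ} {w : Fin n × Fin n → M}
    {r : ℕ → Fin n → Fin n → M} (h0 : ∀ a, r 0 a a = 0)
    (hr : ∀ k a b c, r k a b + w (b, c) = r (k + 1) a c) (k : ℕ) (a c : Fin n) :
    IsWeightedHomogeneous w ((Matrix.mvPolynomialX (Fin n) (Fin n) K ^ k) a c) (r k a c) := by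
  classical
  induction k generalizing c with
  | zero =>
    rw [pow_zero]
    by_cases h : a = c
    · subst h
      rw [Matrix.one_apply_eq, h0]
      exact isWeightedHomogeneous_one _ _
    · rw [Matrix.one_apply_ne h]
      exact isWeightedHomogeneous_zero _ _ _
  | succ k ih =>
    rw [pow_succ, Matrix.mul_apply]
    refine IsWeightedHomogeneous.sum _ _ _ fun b _ => ?_
    rw [← hr k a b c]
    exact (ih b).mul (isWeightedHomogeneous_X _ _ _)

/-- `P(X)` is weighted homogeneous. -/
lemma PX_isWeightedHomogeneous {M : Type*} [AddCommMonoid M] {n : ℕ} {w : Fin n × Fin n → M}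
    {r : ℕ → Fin n → Fin n → M} {t : ℕ → M} (h0 : ∀ a, r 0 a a = 0)
    (hr : ∀ k a b c, r k a b + w (b, c) = r (k + 1) a c) (ht : ∀ k a, r k a a = t k) :
    IsWeightedHomogeneous w (PX n K) (∑ k : Fin n, t k) := by
  classical
  unfold PX
  rw [Matrix.det_apply]
  refine IsWeightedHomogeneous.sum _ _ _ fun τ _ => ?_
  have h1 : IsWeightedHomogeneous w (∏ i, diagPowers (Matrix.mvPolynomialX (Fin n) (Fin n) K)
      (τ i) i) (∑ k : Fin n, t k) := by
    refine IsWeightedHomogeneous.prod _ _ _ fun i _ => ?_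
    rw [diagPowers, Matrix.of_apply, ← ht (i : ℕ) (τ i)]
    exact pow_isWeightedHomogeneous h0 hr _ _ _
  rcases Int.units_eq_one_or (Equiv.Perm.sign τ) with h | h
  · rw [h, one_smul]; exact h1
  · rw [h, Units.neg_smul, one_smul]; exact h1.neg

/-- `P(X)` is homogeneous of degree `n (n - 1) / 2`. -/
lemma PX_isHomogeneous (n : ℕ) : (PX n K).IsHomogeneous (∑ k : Fin n, (k : ℕ)) := by
  have h := PX_isWeightedHomogeneous (K := K) (n := n) (w := (1 : Fin n × Fin n → ℕ))
    (r := fun k _ _ => k) (t := fun k => k) (fun _ => rfl) (fun k a b c => rfl) (fun _ _ => rfl)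
  exact h

/-- The grading by `(number of arcs out of j) - (number of arcs into j)`. -/
def arcWeight (n : ℕ) (j : Fin n) (i : Fin n × Fin n) : ℤ :=
  (if i.1 = j then 1 else 0) - (if i.2 = j then 1 else 0)

/-- `P(X)` has weight `0` for `arcWeight`. -/
lemma PX_arcWeight (n : ℕ) (j : Fin n) :
    IsWeightedHomogeneous (arcWeight n j) (PX n K) 0 := by
  have h := PX_isWeightedHomogeneous (K := K) (n := n) (w := arcWeight n j)
    (r := fun _ a b => (if a = j then 1 else 0) - (if b = j then 1 else 0)) (t := fun _ => 0)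
    (fun a => sub_self _) (fun k a b c => by
      unfold arcWeight
      ring) (fun _ a => sub_self _)
  simpa using h

/-- `diagPowers` commutes with ring homomorphisms. -/
lemma diagPowers_map {R S : Type*} [CommRing R] [CommRing S] {n : ℕ} (φ : R →+* S)
    (A : Matrix (Fin n) (Fin n) R) :
    (diagPowers A).map φ = diagPowers (A.map φ) := by
  apply Matrix.ext
  intro i k
  rw [Matrix.map_apply, diagPowers, diagPowers, Matrix.of_apply, Matrix.of_apply]
  have h : (A.map φ) ^ (k : ℕ) = (A ^ (k : ℕ)).map φ :=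
    (map_pow (RingHom.mapMatrix φ) A (k : ℕ)).symm
  rw [h, Matrix.map_apply]

lemma map_det_diagPowers {R S : Type*} [CommRing R] [CommRing S] {n : ℕ} (φ : R →+* S)
    (A : Matrix (Fin n) (Fin n) R) :
    φ (diagPowers A).det = (diagPowers (A.map φ)).det := by
  rw [RingHom.map_det, RingHom.mapMatrix_apply, diagPowers_map]

/-- Powers of a simultaneously permuted matrix. -/
lemma submatrix_pow {R : Type*} [CommRing R] {n : ℕ} (A : Matrix (Fin n) (Fin n) R)
    (τ : Equiv.Perm (Fin n)) (k : ℕ) : (A.submatrix τ τ) ^ k = (A ^ k).submatrix τ τ := by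
  induction k with
  | zero => rw [pow_zero, pow_zero, Matrix.submatrix_one_equiv]
  | succ k ih => rw [pow_succ, pow_succ, ih, Matrix.submatrix_mul_equiv]

/-- `P` is invariant up to sign under simultaneous permutation. -/
lemma rename_PX (n : ℕ) (τ : Equiv.Perm (Fin n)) :
    rename (Prod.map τ τ) (PX n K) = ((Equiv.Perm.sign τ : ℤ) : MvPolynomial _ K) * PX n K := by
  unfold PX
  have h1 : rename (Prod.map τ τ) (diagPowers (Matrix.mvPolynomialX (Fin n) (Fin n) K)).det =
      ((rename (Prod.map τ τ) : MvPolynomial (Fin n × Fin n) K →ₐ[K] _) :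
        MvPolynomial (Fin n × Fin n) K →+* MvPolynomial (Fin n × Fin n) K)
        (diagPowers (Matrix.mvPolynomialX (Fin n) (Fin n) K)).det := rfl
  rw [h1, map_det_diagPowers]
  have h2 : (Matrix.mvPolynomialX (Fin n) (Fin n) K).map
      ((rename (Prod.map τ τ) : MvPolynomial (Fin n × Fin n) K →ₐ[K] _) :
        MvPolynomial (Fin n × Fin n) K →+* MvPolynomial (Fin n × Fin n) K) =
      (Matrix.mvPolynomialX (Fin n) (Fin n) K).submatrix τ τ := by
    apply Matrix.ext
    intro i j
    rw [Matrix.map_apply, Matrix.mvPolynomialX_apply, Matrix.submatrix_apply,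
      Matrix.mvPolynomialX_apply]
    exact rename_X _ _
  rw [h2]
  have h3 : diagPowers ((Matrix.mvPolynomialX (Fin n) (Fin n) K).submatrix τ τ) =
      (diagPowers (Matrix.mvPolynomialX (Fin n) (Fin n) K)).submatrix τ id := by
    apply Matrix.ext
    intro i k
    rw [diagPowers, Matrix.of_apply, submatrix_pow, Matrix.submatrix_apply,
      Matrix.submatrix_apply, diagPowers, Matrix.of_apply]
    rfl
  rw [h3, Matrix.det_permute]

end Pool.Agent.FReg
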