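import Pool.Agent.FReg.DetLemmas
import Pool.Agent.FReg.PHom

/-!
# A nonzero coefficient of the powers of `P(X)`
-/

namespace Pool.Agent.FReg

open MvPolynomial

variable {K : Type*} [Field K]

/-- The generic matrix over `K[x_{ij} : i, j ∈ ℕ]`. -/
noncomputable def gen (K : Type*) [Field K] (n : ℕ) :
    Matrix (Fin n) (Fin n) (MvPolynomial (ℕ × ℕ) K) :=
  Matrix.of fun i j => X ((i : ℕ), (j : ℕ))

/-- The generic matrix with the entries `i + j ≥ t` set to zero. -/
noncomputable def cut (K : Type*) [Field K] (t n : ℕ) :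
    Matrix (Fin n) (Fin n) (MvPolynomial (ℕ × ℕ) K) :=
  Matrix.of fun i j => if (i : ℕ) + (j : ℕ) < t then X ((i : ℕ), (j : ℕ)) else 0

/-- Set the variables `x_{ij}` with `i + j ≥ t` to zero. -/
noncomputable def kill (K : Type*) [Field K] (t : ℕ) :
    MvPolynomial (ℕ × ℕ) K →ₐ[K] MvPolynomial (ℕ × ℕ) K :=
  aeval fun i => if i.1 + i.2 < t then X i else 0

lemma coeff_kill (t : ℕ) (F : MvPolynomial (ℕ × ℕ) K) {m : (ℕ × ℕ) →₀ ℕ}
    (hm : ∀ i, m i ≠ 0 → i.1 + i.2 < t) : coeff m (kill K t F) = coeff m F := by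
  classical
  induction F using MvPolynomial.induction_on' with
  | monomial s a =>
    by_cases hs : ∀ i, s i ≠ 0 → i.1 + i.2 < t
    · have : kill K t (monomial s a) = monomial s a := by
        rw [kill, aeval_monomial, monomial_eq, algebraMap_eq]
        congr 1
        refine Finset.prod_congr rfl fun i hi => ?_
        beta_reduce
        rw [if_pos (hs i (Finsupp.mem_support_iff.1 hi))]
      rw [this]
    · push Not at hs
      obtain ⟨i, hi, hit⟩ := hs
      have h1 : kill K t (monomial s a) = 0 := by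
        rw [kill, aeval_monomial]
        have : (s.prod fun i k => (if i.1 + i.2 < t then (X i : MvPolynomial (ℕ × ℕ) K) else 0) ^ k)
            = 0 := by
          apply Finset.prod_eq_zero (Finsupp.mem_support_iff.2 hi)
          beta_reduce
          rw [if_neg (by omega), zero_pow hi]
        rw [this, mul_zero]
      rw [h1, coeff_zero, coeff_monomial, if_neg]
      rintro rfl
      have := hm i hi
      omega
  | add F G hF hG => rw [map_add, coeff_add, coeff_add, hF, hG]

lemma gen_map_kill (m : ℕ) : (gen K (m + 1)).map (kill K m) = cut K m (m + 1) := by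
  apply Matrix.ext
  intro i j
  rw [Matrix.map_apply, gen, cut, Matrix.of_apply, Matrix.of_apply, kill, aeval_X]

lemma cut_map_kill (m : ℕ) : (cut K (m + 1) (m + 1)).map (kill K m) = cut K m (m + 1) := by
  apply Matrix.ext
  intro i j
  rw [Matrix.map_apply, cut, cut, Matrix.of_apply, Matrix.of_apply]
  by_cases h : (i : ℕ) + (j : ℕ) < m + 1
  · rw [if_pos h, kill, aeval_X]
  · rw [if_neg h, map_zero, if_neg (by omega)]

/-- The antidiagonal monomial. -/
noncomputable def antiMon (m : ℕ) : (ℕ × ℕ) →₀ ℕ :=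
  ∑ i : Fin (m + 1), Finsupp.single ((i : ℕ), m - (i : ℕ)) 1

/-- The monomial `∏_{i + j < t} x_{ij}`. -/
noncomputable def stairMon (t : ℕ) : (ℕ × ℕ) →₀ ℕ := ∑ s ∈ Finset.range t, antiMon s

lemma antiMon_apply (m : ℕ) (x : ℕ × ℕ) : antiMon m x = if x.1 + x.2 = m then 1 else 0 := by
  classical
  rw [antiMon, Finsupp.finsetSum_apply]
  split_ifs with h
  · rw [Finset.sum_eq_single (⟨x.1, by omega⟩ : Fin (m + 1))]
    · rw [Finsupp.single_apply, if_pos]
      apply Prod.ext
      · rfl
      · simp only; omega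
    · intro b _ hb
      rw [Finsupp.single_apply, if_neg]
      intro h1
      apply hb
      apply Fin.ext
      exact congrArg Prod.fst h1
    · intro h1
      exact absurd (Finset.mem_univ _) h1
  · refine Finset.sum_eq_zero fun b _ => ?_
    rw [Finsupp.single_apply, if_neg]
    intro h1
    apply h
    rw [← h1]
    have := b.2
    simp only
    omega

lemma stairMon_apply (t : ℕ) (x : ℕ × ℕ) : stairMon t x = if x.1 + x.2 < t then 1 else 0 := by
  classical
  rw [stairMon, Finsupp.finsetSum_apply]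
  simp only [antiMon_apply]
  rw [Finset.sum_ite_eq]
  simp only [Finset.mem_range]

/-- The determinant of the anti-triangular generic matrix. -/
lemma det_cut (m : ℕ) : ∃ ε : K, (ε = 1 ∨ ε = -1) ∧
    (cut K (m + 1) (m + 1)).det = monomial (antiMon m) ε := by
  classical
  have h1 := Matrix.det_permute' (Fin.revPerm (n := m + 1)) (cut K (m + 1) (m + 1))
  have h2 : ((cut K (m + 1) (m + 1)).submatrix id (Fin.revPerm (n := m + 1))).det =
      monomial (antiMon m) 1 := by
    rw [Matrix.det_of_isUpperTriangular]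
    · have h3 : ∀ i : Fin (m + 1), ((cut K (m + 1) (m + 1)).submatrix id
          (Fin.revPerm (n := m + 1))) i i = monomial (Finsupp.single ((i : ℕ), m - (i : ℕ)) 1) 1 := by
        intro i
        have := i.2
        rw [Matrix.submatrix_apply, cut, Matrix.of_apply, id, Fin.revPerm_apply, Fin.val_rev,
          if_pos (by omega)]
        rw [show m + 1 - ((i : ℕ) + 1) = m - (i : ℕ) by omega]
        rfl
      simp only [h3]
      rw [antiMon, monomial_sum_one]
    · intro i j hij
      have h4 : (j : ℕ) < (i : ℕ) := hij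
      have := i.2
      rw [Matrix.submatrix_apply, cut, Matrix.of_apply, id, Fin.revPerm_apply, Fin.val_rev,
        if_neg (by omega)]
  rw [h2] at h1
  rcases Int.units_eq_one_or (Equiv.Perm.sign (Fin.revPerm (n := m + 1))) with h | h
  · refine ⟨1, Or.inl rfl, ?_⟩
    rw [h] at h1
    simpa using h1.symm
  · refine ⟨-1, Or.inr rfl, ?_⟩
    rw [h] at h1
    rw [map_neg, h1]
    simp

/-- The coefficient of `∏_{i + j < m} x_{ij} ^ k` in `P_{m+1} ^ k`, both for the generic and for the
anti-triangular generic matrix. -/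
lemma coeff_stair (m : ℕ) : ∃ ε : K, (ε = 1 ∨ ε = -1) ∧ ∀ k : ℕ,
    coeff (k • stairMon m) ((diagPowers (gen K (m + 1))).det ^ k) = ε ^ k ∧
    coeff (k • stairMon m) ((diagPowers (cut K (m + 1) (m + 1))).det ^ k) = ε ^ k := by
  classical
  have hsupp : ∀ m k : ℕ, ∀ i, (k • stairMon m) i ≠ 0 → i.1 + i.2 < m := by
    intro m k i hi
    rw [Finsupp.smul_apply, stairMon_apply] at hi
    by_contra hcon
    rw [if_neg hcon] at hi
    exact hi (smul_zero _)
  have hg : ∀ m k : ℕ, coeff (k • stairMon m) ((diagPowers (gen K (m + 1))).det ^ k) =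
      coeff (k • stairMon m) ((diagPowers (cut K m (m + 1))).det ^ k) := by
    intro m k
    rw [← coeff_kill m _ (hsupp m k), map_pow]
    have := map_det_diagPowers ((kill K m : MvPolynomial (ℕ × ℕ) K →ₐ[K] _) :
      MvPolynomial (ℕ × ℕ) K →+* MvPolynomial (ℕ × ℕ) K) (gen K (m + 1))
    have h2 : kill K m (diagPowers (gen K (m + 1))).det =
        (diagPowers (cut K m (m + 1))).det := by
      rw [← gen_map_kill]
      exact this
    rw [h2]
  have hc : ∀ m k : ℕ, coeff (k • stairMon m) ((diagPowers (cut K (m + 1) (m + 1))).det ^ k) =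
      coeff (k • stairMon m) ((diagPowers (cut K m (m + 1))).det ^ k) := by
    intro m k
    rw [← coeff_kill m _ (hsupp m k), map_pow]
    have := map_det_diagPowers ((kill K m : MvPolynomial (ℕ × ℕ) K →ₐ[K] _) :
      MvPolynomial (ℕ × ℕ) K →+* MvPolynomial (ℕ × ℕ) K) (cut K (m + 1) (m + 1))
    have h2 : kill K m (diagPowers (cut K (m + 1) (m + 1))).det =
        (diagPowers (cut K m (m + 1))).det := by
      rw [← cut_map_kill]
      exact this
    rw [h2]
  suffices h : ∀ m : ℕ, ∃ ε : K, (ε = 1 ∨ ε = -1) ∧ ∀ k : ℕ,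
      coeff (k • stairMon m) ((diagPowers (cut K m (m + 1))).det ^ k) = ε ^ k by
    obtain ⟨ε, hε, h1⟩ := h m
    refine ⟨ε, hε, fun k => ⟨?_, ?_⟩⟩
    · rw [hg, h1]
    · rw [hc, h1]
  intro m
  induction m with
  | zero =>
    refine ⟨1, Or.inl rfl, fun k => ?_⟩
    have h1 : (diagPowers (cut K 0 (0 + 1))).det = 1 := by
      rw [Matrix.det_fin_one, diagPowers, Matrix.of_apply]
      simp
    have h2 : k • stairMon 0 = 0 := by
      rw [stairMon, Finset.range_zero, Finset.sum_empty, smul_zero]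
    rw [h1, h2, one_pow, one_pow, coeff_one, if_pos rfl]
  | succ m ih =>
    obtain ⟨ε₁, hε₁, h1⟩ := ih
    obtain ⟨ε₂, hε₂, h2⟩ := det_cut (K := K) m
    have h3 := det_diagPowers_pad (cut K (m + 1) (m + 1)) (cut K (m + 1) (m + 1 + 1))
      (by
        intro i j
        rw [cut, cut, Matrix.of_apply, Matrix.of_apply]
        simp)
      (by
        intro j
        rw [cut, Matrix.of_apply, if_neg]
        rw [Fin.val_last]
        omega)
    have hsgn : ∃ ε₃ : K, (ε₃ = 1 ∨ ε₃ = -1) ∧
        (diagPowers (cut K (m + 1) (m + 1 + 1))).det =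
          monomial (antiMon m) ε₃ * (diagPowers (cut K (m + 1) (m + 1))).det := by
      rw [h3, h2, ← mul_assoc]
      rcases neg_one_pow_eq_or (MvPolynomial (ℕ × ℕ) K) (m + 1) with h | h
      · refine ⟨ε₂, hε₂, ?_⟩
        rw [h, one_mul]
      · refine ⟨-ε₂, ?_, ?_⟩
        · rcases hε₂ with h | h
          · right; rw [h]
          · left; rw [h, neg_neg]
        · rw [h, map_neg, neg_one_mul]
    obtain ⟨ε₃, hε₃, h4⟩ := hsgn
    refine ⟨ε₃ * ε₁, ?_, fun k => ?_⟩
    · rcases hε₃ with h | h <;> rcases hε₁ with h' | h' <;> rw [h, h'] <;> simp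
    · have h5 : k • stairMon (m + 1) = k • antiMon m + k • stairMon m := by
        rw [stairMon, Finset.sum_range_succ, smul_add, add_comm]
        rfl
      rw [h4, mul_pow, monomial_pow, h5, coeff_monomial_mul, hc, h1, mul_pow]

/-- For every vertex `j` there is a squarefree monomial `μ`, not involving the index `j`, all of
whose powers have nonzero coefficient in the corresponding power of `P(X)`. -/
lemma exists_mu {n : ℕ} (j : Fin n) : ∃ μ : Fin n × Fin n →₀ ℕ, (∀ i, μ i ≤ 1) ∧
    (∀ i, i.1 = j ∨ i.2 = j → μ i = 0) ∧ ∀ k : ℕ, coeff (k • μ) (PX n K ^ k) ≠ 0 := by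
  classical
  obtain ⟨m, rfl⟩ : ∃ m, n = m + 1 := ⟨n - 1, by have := j.2; omega⟩
  obtain ⟨ε, hε, hcoef⟩ := coeff_stair (K := K) m
  have hε0 : ε ≠ 0 := by
    rcases hε with h | h <;> rw [h]
    · exact one_ne_zero
    · exact neg_ne_zero.2 one_ne_zero
  -- the monomial `μ₀` on `Fin (m+1) × Fin (m+1)`
  let ι : Fin (m + 1) × Fin (m + 1) → ℕ × ℕ := Prod.map Fin.val Fin.val
  have hι : Function.Injective ι := Fin.val_injective.prodMap Fin.val_injective
  let μ₀ : Fin (m + 1) × Fin (m + 1) →₀ ℕ := Finsupp.equivFunOnFinite.symm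
    fun i => if (i.1 : ℕ) + (i.2 : ℕ) < m then 1 else 0
  have hμ₀ : ∀ i, μ₀ i = if (i.1 : ℕ) + (i.2 : ℕ) < m then 1 else 0 := fun i => rfl
  have hmap : Finsupp.mapDomain ι μ₀ = stairMon m := by
    ext x
    rw [stairMon_apply]
    by_cases hx : x ∈ Set.range ι
    · obtain ⟨y, rfl⟩ := hx
      rw [Finsupp.mapDomain_apply hι, hμ₀]
      rfl
    · rw [Finsupp.mapDomain_of_notMem_range _ _ hx, if_neg]
      intro h
      apply hx
      exact ⟨(⟨x.1, by omega⟩, ⟨x.2, by omega⟩), rfl⟩
  have hPX : rename ι (PX (m + 1) K) = (diagPowers (gen K (m + 1))).det := by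
    unfold PX
    have h1 := map_det_diagPowers ((rename ι : MvPolynomial (Fin (m + 1) × Fin (m + 1)) K →ₐ[K] _) :
        MvPolynomial (Fin (m + 1) × Fin (m + 1)) K →+* MvPolynomial (ℕ × ℕ) K)
        (Matrix.mvPolynomialX (Fin (m + 1)) (Fin (m + 1)) K)
    have h2 : (Matrix.mvPolynomialX (Fin (m + 1)) (Fin (m + 1)) K).map
        ((rename ι : MvPolynomial (Fin (m + 1) × Fin (m + 1)) K →ₐ[K] _) :
        MvPolynomial (Fin (m + 1) × Fin (m + 1)) K →+* MvPolynomial (ℕ × ℕ) K) =
        gen K (m + 1) := by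
      apply Matrix.ext
      intro i j
      rw [Matrix.map_apply, Matrix.mvPolynomialX_apply, gen, Matrix.of_apply]
      exact rename_X _ _
    rw [h2] at h1
    exact h1
  have hc0 : ∀ k : ℕ, coeff (k • μ₀) (PX (m + 1) K ^ k) = ε ^ k := by
    intro k
    rw [← coeff_rename_mapDomain ι hι, map_pow, hPX]
    have : Finsupp.mapDomain ι (k • μ₀) = k • stairMon m := by
      rw [Finsupp.mapDomain_smul, hmap]
    rw [this]
    exact (hcoef k).1
  -- permute
  let τ : Equiv.Perm (Fin (m + 1)) := Equiv.swap j (Fin.last m)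
  have hτ2 : ∀ i, τ (τ i) = i := fun i => by
    rw [← Equiv.trans_apply, Equiv.swap_swap, Equiv.refl_apply]
  have hinj : Function.Injective (Prod.map τ τ) := τ.injective.prodMap τ.injective
  have hμ : ∀ i, Finsupp.mapDomain (Prod.map τ τ) μ₀ i = μ₀ (Prod.map τ τ i) := by
    intro i
    have h1 : i = Prod.map τ τ (Prod.map τ τ i) := by
      apply Prod.ext
      · exact (hτ2 i.1).symm
      · exact (hτ2 i.2).symm
    conv_lhs => rw [h1]
    rw [Finsupp.mapDomain_apply hinj]
  refine ⟨Finsupp.mapDomain (Prod.map τ τ) μ₀, ?_, ?_, ?_⟩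
  · intro i
    rw [hμ, hμ₀]
    split_ifs <;> omega
  · intro i hi
    rw [hμ, hμ₀, if_neg]
    rcases hi with hi | hi
    · have : ((Prod.map τ τ i).1 : ℕ) = m := by
        change ((τ i.1 : Fin (m + 1)) : ℕ) = m
        rw [hi, Equiv.swap_apply_left, Fin.val_last]
      omega
    · have : ((Prod.map τ τ i).2 : ℕ) = m := by
        change ((τ i.2 : Fin (m + 1)) : ℕ) = m
        rw [hi, Equiv.swap_apply_left, Fin.val_last]
      omega
  · intro k
    have h1 := coeff_rename_mapDomain (Prod.map τ τ) hinj (PX (m + 1) K ^ k) (k • μ₀)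
    rw [map_pow, rename_PX, Finsupp.mapDomain_smul, hc0] at h1
    intro hcon
    apply pow_ne_zero k hε0
    rw [← h1]
    rcases Int.units_eq_one_or (Equiv.Perm.sign τ) with h | h
    · rw [h]
      simpa using hcon
    · rw [h, mul_pow]
      rcases neg_one_pow_eq_or (MvPolynomial (Fin (m + 1) × Fin (m + 1)) K) k with h' | h'
      · simpa [h'] using hcon
      · simpa [h'] using hcon

end Pool.Agent.FReg
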