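import Pool.Agent.FReg.Filtration
import Pool.Agent.FReg.FPure

/-!
# The descent: `T(P)` contains no strictly upper triangular monomial
-/

namespace Pool.Agent.FReg

open MvPolynomial

section General

variable {σ : Type*} {K : Type*} [Field K] {p : ℕ} [Fact p.Prime] [CharP K p]

lemma weight_eq_zero_iff' {ζ : σ → ℕ} {m : σ →₀ ℕ} :
    Finsupp.weight ζ m = 0 ↔ ∀ i, ζ i ≠ 0 → m i = 0 := by
  rw [Finsupp.weight_apply, Finsupp.sum, Finset.sum_eq_zero_iff]
  constructor
  · intro h i hi
    by_contra hcon
    have := h i (Finsupp.mem_support_iff.2 hcon)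
    rw [smul_eq_mul, mul_eq_zero] at this
    tauto
  · intro h i _
    by_cases hi : ζ i = 0
    · rw [hi, smul_zero]
    · rw [h i hi, zero_smul]

/-- **Descent lemma.** -/
lemma descend {f : MvPolynomial σ K} {d : ℕ} (hf : f.IsHomogeneous d) {ζ : σ → ℕ}
    {μ : σ →₀ ℕ} (hμ1 : ∀ i, μ i ≤ 1) (hμζ : ∀ i, ζ i ≠ 0 → μ i = 0)
    (hμf : ∀ k : ℕ, coeff (k • μ) (f ^ k) ≠ 0)
    {g : MvPolynomial σ K} (hg : g ∈ TT p f) {k : ℕ} (hgk : g ∈ Fil K ζ k) {b c : σ →₀ ℕ}
    (hb : ∀ i, ζ i = 0 → b i = 0) (hc : ∀ i, ζ i ≠ 0 → c i = 0)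
    (hbk : Finsupp.weight ζ b = k) (hbc : coeff (b + c) g ≠ 0) :
    ∃ g' ∈ TT p f, coeff c g' ≠ 0 := by
  classical
  have hp : 1 < p := (Fact.out : p.Prime).one_lt
  have hμd : μ.degree = d := by
    have h1 := hμf 1
    rw [one_smul, pow_one] at h1
    by_contra hcon
    exact h1 (hf.coeff_eq_zero hcon)
  -- choose `q`
  set e := b.degree with he
  have hqb : b.degree < p ^ e := Nat.lt_pow_self hp
  set q := p ^ e with hq
  have hq0 : 0 < q := by omega
  obtain ⟨θ, hθ, hθ1⟩ := exists_root_linear (p := p) e (hμf (q - 1))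
  -- the coefficient of `z^b`
  set G : MvPolynomial σ K :=
    weightedHomogeneousComponent ζ 0 (extract 1 Nat.one_pos b (AddMonoidHom.id K) g) with hG
  have hGc : ∀ δ : σ →₀ ℕ, coeff δ G = if Finsupp.weight ζ δ = 0 then coeff (b + δ) g else 0 := by
    intro δ
    rw [hG, coeff_weightedHomogeneousComponent, coeff_extract, one_smul]
    rfl
  set f₀ := weightedHomogeneousComponent ζ 0 f with hf₀
  -- the relevant component of `G ^ (q - 1) f ^ (q - 1)`
  have hG0 : weightedHomogeneousComponent ζ 0 G = G :=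
    (weightedHomogeneousComponent_isWeightedHomogeneous _ _).weightedHomogeneousComponent_same
  have hcomp : weightedHomogeneousComponent ζ 0 (G ^ (q - 1) * f ^ (q - 1)) =
      G ^ (q - 1) * f₀ ^ (q - 1) := by
    have h1 := component_mul (w := ζ) (a := 0) (b := 0) (mem_Fil_zero (G ^ (q - 1)))
      (mem_Fil_zero (f ^ (q - 1)))
    rw [zero_add] at h1
    rw [h1]
    have h2 := component_pow (w := ζ) (a := 0) (mem_Fil_zero G) (q - 1)
    have h3 := component_pow (w := ζ) (a := 0) (mem_Fil_zero f) (q - 1)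
    rw [mul_zero] at h2 h3
    rw [h2, h3, hG0]
  set H₀ := G ^ (q - 1) * f₀ ^ (q - 1) with hH₀
  -- key coefficient identity
  have key : ∀ m : σ →₀ ℕ, Finsupp.weight ζ m = 0 →
      coeff (b + m) (g * (G ^ (q - 1) * f ^ (q - 1))) = coeff m (G * H₀) := by
    intro m hm
    have h1 : coeff (b + m) (g * (G ^ (q - 1) * f ^ (q - 1))) =
        coeff (b + m) (weightedHomogeneousComponent ζ k g * H₀) := by
      rw [← hcomp, ← component_mul hgk (mem_Fil_zero _), coeff_weightedHomogeneousComponent,
        if_pos]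
      rw [map_add, hbk, hm]
    have hH0h : IsWeightedHomogeneous ζ H₀ 0 := by
      rw [← hcomp]
      exact weightedHomogeneousComponent_isWeightedHomogeneous _ _
    rw [h1, ← sub_eq_zero]
    have h2 : coeff m (G * H₀) = coeff (b + m) (monomial b 1 * G * H₀) := by
      rw [mul_assoc, coeff_monomial_mul, one_mul]
    rw [h2, ← coeff_sub, ← sub_mul, coeff_mul]
    refine Finset.sum_eq_zero fun x hx => ?_
    rw [Finset.HasAntidiagonal.mem_antidiagonal] at hx
    by_cases hx2 : coeff x.2 H₀ = 0
    · rw [hx2, mul_zero]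
    · have h3 := weight_eq_zero_iff'.1 (hH0h hx2)
      have h4 := weight_eq_zero_iff'.1 hm
      -- `x.1 = b + δ`
      have hbx : b ≤ x.1 := by
        intro i
        by_cases hi : ζ i = 0
        · rw [hb i hi]; exact Nat.zero_le _
        · have h5 := DFunLike.congr_fun hx i
          rw [Finsupp.add_apply, Finsupp.add_apply, h3 i hi, h4 i hi] at h5
          omega
      have hδ : ∀ i, ζ i ≠ 0 → (x.1 - b) i = 0 := by
        intro i hi
        have h5 := DFunLike.congr_fun hx i
        rw [Finsupp.add_apply, Finsupp.add_apply, h3 i hi, h4 i hi] at h5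
        rw [Finsupp.tsub_apply]
        omega
      have hx1 : b + (x.1 - b) = x.1 := add_tsub_cancel_of_le hbx
      have hw : Finsupp.weight ζ (x.1 - b) = 0 := weight_eq_zero_iff'.2 hδ
      have h6 : coeff x.1 (weightedHomogeneousComponent ζ k g - monomial b 1 * G) = 0 := by
        rw [← hx1, coeff_sub, coeff_weightedHomogeneousComponent, coeff_monomial_mul, one_mul,
          hGc, if_pos hw, if_pos, sub_self]
        rw [map_add, hbk, hw, add_zero]
      rw [h6, zero_mul]
  -- the extraction maps
  have hα : ∀ i, (b + (q - 1) • μ) i < q := by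
    intro i
    rw [Finsupp.add_apply, Finsupp.smul_apply, smul_eq_mul]
    by_cases hi : ζ i = 0
    · rw [hb i hi, zero_add]
      have := hμ1 i
      have : (q - 1) * μ i ≤ q - 1 := by nlinarith
      omega
    · rw [hμζ i hi, mul_zero, add_zero]
      exact lt_of_le_of_lt (Finsupp.le_degree i b) hqb
  have hα' : ∀ i, ((q - 1) • μ) i < q := by
    intro i
    rw [Finsupp.smul_apply, smul_eq_mul]
    have := hμ1 i
    have : (q - 1) * μ i ≤ q - 1 := by nlinarith
    omega
  set π := extract q hq0 (b + (q - 1) • μ) θ with hπ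
  set π₁ := extract q hq0 ((q - 1) • μ) θ with hπ₁
  have hπl : RootLinear q π := extract_rootLinear e hq0 hα hθ
  have hπ₁l : RootLinear q π₁ := extract_rootLinear e hq0 hα' hθ
  have hμw : Finsupp.weight ζ μ = 0 := weight_eq_zero_iff'.2 hμζ
  have hone : π₁ (f₀ ^ (q - 1)) = 1 := by
    have hfq : (f ^ (q - 1)).IsHomogeneous (d * (q - 1)) := hf.pow _
    have h3 := component_pow (w := ζ) (a := 0) (mem_Fil_zero f) (q - 1)
    rw [mul_zero] at h3
    apply MvPolynomial.ext
    intro δ
    rw [hπ₁, coeff_extract, ← h3, coeff_weightedHomogeneousComponent, coeff_one]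
    by_cases hδ : 0 = δ
    · rw [if_pos hδ, ← hδ, smul_zero, add_zero, if_pos, hθ1]
      rw [map_nsmul, hμw, smul_zero]
    · rw [if_neg hδ]
      split_ifs
      · have : coeff ((q - 1) • μ + q • δ) (f ^ (q - 1)) = 0 := by
          apply hfq.coeff_eq_zero
          rw [map_add, map_nsmul, map_nsmul, hμd, smul_eq_mul, smul_eq_mul, mul_comm]
          have h7 : δ.degree ≠ 0 := by
            intro h0
            exact hδ ((Finsupp.degree_eq_zero_iff δ).1 h0).symm
          have : 0 < q * δ.degree := Nat.mul_pos hq0 (Nat.pos_of_ne_zero h7)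
          omega
        rw [this, map_zero]
      · rw [map_zero]
  refine ⟨π (g * (G ^ (q - 1) * f ^ (q - 1))), ?_, ?_⟩
  · rw [← mul_assoc]
    exact TT_stable (Ideal.mul_mem_right _ _ hg) e hπl
  · have h1 : coeff c (π (g * (G ^ (q - 1) * f ^ (q - 1)))) = coeff c (π₁ (G * H₀)) := by
      rw [hπ, coeff_extract, hπ₁, coeff_extract, add_assoc, key]
      rw [map_add, map_nsmul, map_nsmul, hμw, weight_eq_zero_iff'.2 hc, smul_zero, smul_zero,
        add_zero]
    have h2 : G * H₀ = G ^ q * f₀ ^ (q - 1) := by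
      rw [hH₀, ← mul_assoc, ← pow_succ', Nat.sub_add_cancel hq0]
    rw [h1, h2, hπ₁l, hone, mul_one, hGc, if_pos (weight_eq_zero_iff'.2 hc)]
    exact hbc

omit [CharP K p] in
/-- No element of `T(f)` has a constant term. -/
lemma constantCoeff_eq_zero_of_mem_TT {f : MvPolynomial σ K} {d : ℕ} (hf : f.IsHomogeneous d)
    {μ : σ →₀ ℕ} (hμ1 : ∀ i, μ i ≤ 1)
    (hμf : ∀ k : ℕ, coeff (k • μ) (f ^ k) ≠ 0)
    {g : MvPolynomial σ K} (hg : g ∈ TT p f) : coeff 0 g = 0 := by
  classical
  have hp : 1 < p := (Fact.out : p.Prime).one_lt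
  have hμd : μ.degree = d := by
    have h1 := hμf 1
    rw [one_smul, pow_one] at h1
    by_contra hcon
    exact h1 (hf.coeff_eq_zero hcon)
  obtain ⟨e, he⟩ := hg
  have h1 := he e le_rfl
  set q := p ^ e with hq
  have hq0 : 0 < q := pow_pos (by omega) e
  have h2 := h1 ((q - 1) • μ) (by
    intro i
    rw [Finsupp.smul_apply, smul_eq_mul]
    have := hμ1 i
    have : (q - 1) * μ i ≤ q - 1 := by nlinarith
    omega)
  have hfq : (f ^ (q - 1)).IsHomogeneous (d * (q - 1)) := hf.pow _
  rw [coeff_mul, Finset.sum_eq_single (0, (q - 1) • μ)] at h2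
  · exact (mul_eq_zero.1 h2).resolve_right (hμf _)
  · intro x hx hne
    rw [Finset.HasAntidiagonal.mem_antidiagonal] at hx
    by_cases hx2 : coeff x.2 (f ^ (q - 1)) = 0
    · rw [hx2, mul_zero]
    · exfalso
      have h3 : x.2.degree = d * (q - 1) := by
        by_contra hcon
        exact hx2 (hfq.coeff_eq_zero hcon)
      have h4 := congrArg Finsupp.degree hx
      rw [map_add, map_nsmul, hμd, h3, smul_eq_mul, mul_comm d] at h4
      have h5 : x.1 = 0 := by
        rw [← Finsupp.degree_eq_zero_iff]
        omega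
      apply hne
      rw [h5, zero_add] at hx
      rw [← h5, ← hx]
  · intro h3
    exfalso
    apply h3
    rw [Finset.HasAntidiagonal.mem_antidiagonal, zero_add]

end General

section Graph

variable {K : Type*} [Field K] {p : ℕ} [Fact p.Prime] [CharP K p]

/-- The indicator of the off-diagonal variables having index `j`. -/
def touch (n : ℕ) (j : Fin n) (i : Fin n × Fin n) : ℕ :=
  if (i.1 = j ∧ i.2 ≠ j) ∨ (i.1 ≠ j ∧ i.2 = j) then 1 else 0

/-- No element of `T(P)` contains a strictly upper triangular monomial. -/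
lemma coeff_upper {n : ℕ} (hn : 0 < n) : ∀ (N : ℕ) (m : Fin n × Fin n →₀ ℕ), m.degree = N →
    (∀ i, m i ≠ 0 → i.1 < i.2) → ∀ g ∈ TT p (PX n K), coeff m g = 0 := by
  classical
  intro N
  induction N using Nat.strong_induction_on with
  | _ N ih =>
  intro m hmN hm g hg
  by_cases hm0 : m = 0
  · subst hm0
    obtain ⟨μ, hμ1, -, hμf⟩ := exists_mu (K := K) (⟨0, hn⟩ : Fin n)
    exact constantCoeff_eq_zero_of_mem_TT (PX_isHomogeneous n) hμ1 hμf hg
  · -- the minimal source vertex
    have hex : ∃ j : ℕ, ∃ i : Fin n × Fin n, m i ≠ 0 ∧ (i.1 : ℕ) = j := by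
      obtain ⟨i, hi⟩ := Finsupp.ne_iff.1 hm0
      exact ⟨i.1, i, hi, rfl⟩
    obtain ⟨i₁, hi₁, hj⟩ := Nat.find_spec hex
    have hmin : ∀ i : Fin n × Fin n, m i ≠ 0 → i₁.1 ≤ i.1 := by
      intro i hi
      have := Nat.find_min' hex ⟨i, hi, rfl⟩
      rw [← hj] at this
      exact this
    set j := i₁.1 with hjdef
    by_contra hne
    obtain ⟨μ, hμ1, hμj, hμf⟩ := exists_mu (K := K) j
    -- split the monomial
    set b : Fin n × Fin n →₀ ℕ := m.filter (fun i => i.1 = j) with hb
    set c : Fin n × Fin n →₀ ℕ := m.filter (fun i => ¬ i.1 = j) with hc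
    have hbc : b + c = m := Finsupp.filter_add_filter_not m _
    have hbi : ∀ i, b i = if i.1 = j then m i else 0 := by
      intro i
      rw [hb, Finsupp.filter_apply]
    have hci : ∀ i, c i = if i.1 = j then 0 else m i := by
      intro i
      rw [hc, Finsupp.filter_apply]
      by_cases h : i.1 = j
      · rw [if_pos h, if_neg (not_not.2 h)]
      · rw [if_neg h, if_pos h]
    have hbt : ∀ i, touch n j i = 0 → b i = 0 := by
      intro i hi
      rw [hbi]
      split_ifs with h
      · by_contra hcon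
        have h1 := hm i hcon
        rw [touch, if_pos] at hi
        · exact one_ne_zero hi
        · left
          refine ⟨h, ?_⟩
          rw [← h]
          exact h1.ne'
      · rfl
    have hct : ∀ i, touch n j i ≠ 0 → c i = 0 := by
      intro i hi
      rw [hci]
      split_ifs with h
      · rfl
      · by_contra hcon
        have h1 := hm i hcon
        have h2 := hmin i hcon
        rw [touch] at hi
        have h3 : i.2 = j := by
          by_contra h4
          apply hi
          rw [if_neg]
          tauto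
        rw [h3] at h1
        exact absurd h2 (not_le.2 h1)
    set k := Finsupp.weight (touch n j) b with hk
    -- `arcWeight` of the monomial
    have harcb : Finsupp.weight (arcWeight n j) b = (k : ℤ) := by
      rw [hk, Finsupp.weight_apply, Finsupp.weight_apply, Finsupp.sum, Finsupp.sum, Nat.cast_sum]
      refine Finset.sum_congr rfl fun i hi => ?_
      rw [Finsupp.mem_support_iff, hbi] at hi
      have h1 : i.1 = j := by
        by_contra h
        rw [if_neg h] at hi
        exact hi rfl
      have h2 : m i ≠ 0 := by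
        rwa [if_pos h1] at hi
      have h3 : i.2 ≠ j := by
        rw [← h1]
        exact (hm i h2).ne'
      rw [arcWeight, touch, if_pos h1, if_neg h3, if_pos (Or.inl ⟨h1, h3⟩)]
      simp
    have harcc : Finsupp.weight (arcWeight n j) c = 0 := by
      rw [Finsupp.weight_apply, Finsupp.sum]
      refine Finset.sum_eq_zero fun i hi => ?_
      rw [Finsupp.mem_support_iff, hci] at hi
      have h1 : ¬ i.1 = j := by
        intro h
        rw [if_pos h] at hi
        exact hi rfl
      have h2 : m i ≠ 0 := by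
        rwa [if_neg h1] at hi
      have h3 : i.2 ≠ j := by
        intro h
        have h4 := hm i h2
        rw [h] at h4
        exact absurd (hmin i h2) (not_le.2 h4)
      rw [arcWeight, if_neg h1, if_neg h3, sub_zero, smul_zero]
    have harc : Finsupp.weight (arcWeight n j) m = (k : ℤ) := by
      rw [← hbc, map_add, harcb, harcc, add_zero]
    -- replace `g` by its component
    set g₁ := weightedHomogeneousComponent (arcWeight n j) (k : ℤ) g with hg₁
    have hg₁T : g₁ ∈ TT p (PX n K) := TT_component (PX_arcWeight n j) hg _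
    have hg₁m : coeff (b + c) g₁ ≠ 0 := by
      rw [hbc, hg₁, coeff_weightedHomogeneousComponent, if_pos harc]
      exact hne
    have hg₁F : g₁ ∈ Fil K (touch n j) k := by
      intro x hx
      rw [hg₁, coeff_weightedHomogeneousComponent, if_neg]
      intro hcon
      have h1 : Finsupp.weight (arcWeight n j) x ≤ (Finsupp.weight (touch n j) x : ℤ) := by
        rw [Finsupp.weight_apply, Finsupp.weight_apply, Finsupp.sum, Finsupp.sum, Nat.cast_sum]
        refine Finset.sum_le_sum fun i _ => ?_
        rw [nsmul_eq_mul, smul_eq_mul, Nat.cast_mul]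
        apply mul_le_mul_of_nonneg_left _ (Nat.cast_nonneg _)
        rw [arcWeight, touch]
        by_cases h1 : i.1 = j <;> by_cases h2 : i.2 = j <;> simp [h1, h2]
      omega
    have hμt : ∀ i, touch n j i ≠ 0 → μ i = 0 := by
      intro i hi
      apply hμj
      rw [touch] at hi
      by_contra hcon
      apply hi
      rw [if_neg]
      tauto
    obtain ⟨g', hg', hne'⟩ := descend (PX_isHomogeneous n) hμ1 hμt hμf hg₁T hg₁F hbt hct rfl hg₁m
    apply hne'
    have hdeg : b.degree + c.degree = N := by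
      rw [← map_add, hbc, hmN]
    have hbpos : 0 < b.degree := by
      have h1 : b i₁ ≤ b.degree := Finsupp.le_degree i₁ b
      have h2 : b i₁ = m i₁ := by rw [hbi, if_pos rfl]
      have := Nat.pos_of_ne_zero hi₁
      omega
    refine ih c.degree (by omega) c rfl ?_ g' hg'
    intro i hi
    apply hm
    intro h
    apply hi
    rw [hci, h, ite_self]

/-- The regular nilpotent matrix as a point. -/
def nilPt (n : ℕ) (K : Type*) [Field K] (i : Fin n × Fin n) : K :=
  if (i.1 : ℕ) + 1 = (i.2 : ℕ) then 1 else 0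

/-- `T(P)` vanishes at the regular nilpotent matrix. -/
lemma eval_nilPt {n : ℕ} (hn : 0 < n) : ∀ g ∈ TT p (PX n K), eval (nilPt n K) g = 0 := by
  classical
  intro g hg
  rw [eval_eq]
  refine Finset.sum_eq_zero fun m _ => ?_
  by_cases h : ∀ i, m i ≠ 0 → i.1 < i.2
  · rw [coeff_upper hn _ m rfl h g hg, zero_mul]
  · push Not at h
    obtain ⟨i, hi, hlt⟩ := h
    rw [Finset.prod_eq_zero (Finsupp.mem_support_iff.2 hi), mul_zero]
    rw [nilPt, if_neg, zero_pow hi]
    intro h
    have : (i.2 : ℕ) ≤ (i.1 : ℕ) := hlt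
    omega

end Graph

end Pool.Agent.FReg
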