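import Pool.Agent.FReg.Cartier

/-!
# The binomial lemma
-/

namespace Pool.Agent.FReg

open MvPolynomial

variable {σ : Type*} {K : Type*} [Field K]

/-- Division by a binomial `a x^u + b x^v`. -/
lemma exists_reduced {u v : σ →₀ ℕ} {a : K} (b : K) (ha : a ≠ 0) {i₀ : σ} (hu : u i₀ = 1)
    (hv : v i₀ = 0) (h : MvPolynomial σ K) :
    ∃ g r : MvPolynomial σ K, h = g * (monomial u a + monomial v b) + r ∧
      ∀ m, coeff m r ≠ 0 → ¬ u ≤ m := by
  classical
  have key : ∀ k : ℕ, ∀ (m : σ →₀ ℕ) (c : K), m i₀ = k →
      ∃ g r : MvPolynomial σ K, monomial m c = g * (monomial u a + monomial v b) + r ∧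
        ∀ m, coeff m r ≠ 0 → ¬ u ≤ m := by
    intro k
    induction k with
    | zero =>
      intro m c hm
      refine ⟨0, monomial m c, by simp, ?_⟩
      intro m' hm' hum
      rw [coeff_monomial] at hm'
      have h1 : m = m' := by
        by_contra hcon
        rw [if_neg hcon] at hm'
        exact hm' rfl
      subst h1
      have := hum i₀
      omega
    | succ k ih =>
      intro m c hm
      by_cases hum : u ≤ m
      · obtain ⟨g, r, h1, h2⟩ := ih (m - u + v) (-(c / a * b)) (by
          simp only [Finsupp.coe_add, Pi.add_apply, Finsupp.coe_tsub, Pi.sub_apply]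
          omega)
        refine ⟨monomial (m - u) (c / a) + g, r, ?_, h2⟩
        rw [add_mul, add_assoc, ← h1, mul_add, monomial_mul, monomial_mul,
          tsub_add_cancel_of_le hum, div_mul_cancel₀ _ ha, add_assoc, ← map_add, add_neg_cancel,
          map_zero, add_zero]
      · refine ⟨0, monomial m c, by simp, ?_⟩
        intro m' hm' hum'
        rw [coeff_monomial] at hm'
        have h1 : m = m' := by
          by_contra hcon
          rw [if_neg hcon] at hm'
          exact hm' rfl
        subst h1
        exact hum hum'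
  induction h using MvPolynomial.induction_on' with
  | monomial m c => exact key (m i₀) m c rfl
  | add p q hp hq =>
    obtain ⟨g₁, r₁, h1, h2⟩ := hp
    obtain ⟨g₂, r₂, h3, h4⟩ := hq
    refine ⟨g₁ + g₂, r₁ + r₂, ?_, ?_⟩
    · conv_lhs => rw [h1, h3]
      ring
    · intro m hm hum
      rw [coeff_add] at hm
      by_cases h5 : coeff m r₁ = 0
      · rw [h5, zero_add] at hm
        exact h4 m hm hum
      · exact h2 m h5 hum

variable {p : ℕ} [Fact p.Prime] [CharP K p]

/-- In characteristic `p`, `(A + B) ^ (q - 1) = ∑ A ^ j (-B) ^ (q - 1 - j)`. -/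
lemma add_pow_sub_one {A B : MvPolynomial σ K} (hAB : A + B ≠ 0) (e : ℕ) :
    (A + B) ^ (p ^ e - 1) = ∑ j ∈ Finset.range (p ^ e), A ^ j * (-B) ^ (p ^ e - 1 - j) := by
  have hp : 0 < p ^ e := pow_pos (Fact.out : p.Prime).pos e
  have h1 := (Commute.all A (-B)).geom_sum₂_mul (p ^ e)
  have h2 : A ^ p ^ e - (-B) ^ p ^ e = (A + B) ^ (p ^ e - 1) * (A + B) := by
    rw [← pow_succ, Nat.sub_add_cancel hp, add_pow_char_pow, neg_pow B,
      neg_one_pow_char_pow]
    ring
  rw [h2, sub_neg_eq_add] at h1
  exact (mul_right_cancel₀ hAB h1).symm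

/-- **Binomial lemma.** Let `x^u`, `x^v` be squarefree coprime monomials, `u ≠ 0`. If
`h (a x^u + b x^v) ^ (q - 1) ∈ M_q` for all `q`, then `a x^u + b x^v` divides `h`. -/
lemma binomial_dvd {u v : σ →₀ ℕ} {a b : K} (ha : a ≠ 0) (hb : b ≠ 0) {i₀ : σ} (hu0 : u i₀ = 1)
    (hu : ∀ i, u i ≤ 1) (hv : ∀ i, v i ≤ 1) (huv : ∀ i, u i = 0 ∨ v i = 0) (hv0 : v ≠ 0)
    {h : MvPolynomial σ K}
    (H : ∀ e : ℕ, h * (monomial u a + monomial v b) ^ (p ^ e - 1) ∈ Mq σ K (p ^ e)) :
    (monomial u a + monomial v b) ∣ h := by
  classical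
  have hp1 : 1 < p := (Fact.out : p.Prime).one_lt
  have hvi : v i₀ = 0 := by
    rcases huv i₀ with h | h
    · omega
    · exact h
  obtain ⟨g, r, hgr, hr⟩ := exists_reduced b ha hu0 hvi h
  suffices r = 0 by
    rw [hgr, this, add_zero]
    exact Dvd.intro_left g rfl
  by_contra hr0
  obtain ⟨γ, hγ⟩ := MvPolynomial.ne_zero_iff.1 hr0
  set bin : MvPolynomial σ K := monomial u a + monomial v b with hbin
  have hu_ne : u ≠ 0 := by
    rintro rfl
    simp at hu0
  have hcc : constantCoeff bin = 0 := by
    rw [constantCoeff_eq, hbin, coeff_add, coeff_monomial, coeff_monomial, if_neg hu_ne,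
      if_neg hv0, add_zero]
  have hbin0 : bin ≠ 0 := by
    intro hcon
    have h1 : coeff u bin = a := by
      rw [hbin, coeff_add, coeff_monomial, coeff_monomial, if_pos rfl, if_neg, add_zero]
      intro h2
      rw [h2] at hvi
      omega
    rw [hcon, coeff_zero] at h1
    exact ha h1.symm
  -- a bound for the entries of `γ`
  set t := γ.degree with ht
  have hγt : ∀ i, γ i ≤ t := fun i => Finsupp.le_degree i γ
  set e := 2 * t + 1 with he
  have hqe : 2 * t + 1 < p ^ e := Nat.lt_pow_self hp1
  set q := p ^ e with hq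
  have hq0 : 0 < q := by omega
  have hrM : r * bin ^ (q - 1) ∈ Mq σ K q := by
    have h1 : r * bin ^ (q - 1) = h * bin ^ (q - 1) - g * bin ^ q := by
      have : bin ^ q = bin * bin ^ (q - 1) := by
        rw [← pow_succ', Nat.sub_add_cancel hq0]
      rw [this, hgr]; ring
    rw [h1]
    exact Ideal.sub_mem _ (H e) (Ideal.mul_mem_left _ _ (pow_mem_Mq hcc e))
  set M : σ →₀ ℕ := γ + (t • u + (q - 1 - t) • v) with hM
  have hMq : ∀ i, M i < q := by
    intro i
    have h1 := hγt i
    have h2 := hu i
    have h3 := hv i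
    simp only [hM, Finsupp.coe_add, Finsupp.coe_smul, Pi.add_apply, Pi.smul_apply, smul_eq_mul]
    rcases huv i with h4 | h4
    · rw [h4, mul_zero, zero_add]
      have : (q - 1 - t) * v i ≤ q - 1 - t := by nlinarith
      omega
    · rw [h4, mul_zero, add_zero]
      have : t * u i ≤ t := by nlinarith
      omega
  have hzero := hrM M hMq
  apply hγ
  rw [add_pow_sub_one hbin0 e, Finset.mul_sum, coeff_sum] at hzero
  rw [Finset.sum_eq_single t] at hzero
  · -- the main term
    have e1 : (monomial u a) ^ t * (-(monomial v b : MvPolynomial σ K)) ^ (q - 1 - t) =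
        monomial (t • u + (q - 1 - t) • v) (a ^ t * (-b) ^ (q - 1 - t)) := by
      rw [← map_neg, monomial_pow, monomial_pow, monomial_mul]
    rw [e1, hM, coeff_mul_monomial] at hzero
    have hne : a ^ t * (-b) ^ (q - 1 - t) ≠ 0 :=
      mul_ne_zero (pow_ne_zero _ ha) (pow_ne_zero _ (neg_ne_zero.2 hb))
    exact (mul_eq_zero.1 hzero).resolve_right hne
  · intro j hj hjt
    rw [Finset.mem_range] at hj
    have e1 : (monomial u a) ^ j * (-(monomial v b : MvPolynomial σ K)) ^ (q - 1 - j) =
        monomial (j • u + (q - 1 - j) • v) (a ^ j * (-b) ^ (q - 1 - j)) := by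
      rw [← map_neg, monomial_pow, monomial_pow, monomial_mul]
    rw [e1, coeff_mul_monomial']
    split_ifs with hle
    · have hz : coeff (M - (j • u + (q - 1 - j) • v)) r = 0 := by
        by_contra hcon
        rcases lt_or_gt_of_ne hjt with hlt | hgt
        · apply hr _ hcon
          intro i
          have h1 := hle i
          simp only [hM, Finsupp.coe_add, Finsupp.coe_smul, Pi.add_apply, Pi.smul_apply,
            smul_eq_mul, Finsupp.coe_tsub, Pi.sub_apply] at h1 ⊢
          rcases huv i with h4 | h4
          · rw [h4]; exact Nat.zero_le _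
          · rw [h4] at h1 ⊢
            have h2 := hu i
            interval_cases hui : u i
            · exact Nat.zero_le _
            · omega
        · apply hr _ hγ
          intro i
          have h1 := hle i
          simp only [hM, Finsupp.coe_add, Finsupp.coe_smul, Pi.add_apply, Pi.smul_apply,
            smul_eq_mul] at h1
          rcases huv i with h4 | h4
          · rw [h4]; exact Nat.zero_le _
          · rw [h4] at h1
            have h2 := hu i
            interval_cases hui : u i
            · exact Nat.zero_le _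
            · omega
      rw [hz, zero_mul]
    · rfl
  · intro hcon
    exact absurd (Finset.mem_range.2 (by omega)) hcon

end Pool.Agent.FReg
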