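import Pool.Agent.FReg.Filtration
import Pool.Agent.FReg.Binomial

/-!
# The local analysis of `T(f)` at a point where the lowest form of `f` is a binomial
-/

namespace Pool.Agent.FReg

open MvPolynomial

variable {σ : Type*} {K : Type*} [Field K]

/-- Translation `X_i ↦ X_i + N_i`. -/
noncomputable def shiftHom (N : σ → K) : MvPolynomial σ K →ₐ[K] MvPolynomial σ K :=
  aeval fun i => X i + C (N i)

@[simp]
lemma shiftHom_X (N : σ → K) (i : σ) : shiftHom N (X i) = X i + C (N i) := by
  rw [shiftHom, aeval_X]

/-- Translation `X_i ↦ X_i + N_i`, as an automorphism. -/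
noncomputable def shift (N : σ → K) : MvPolynomial σ K ≃ₐ[K] MvPolynomial σ K :=
  AlgEquiv.ofAlgHom (shiftHom N) (shiftHom (-N))
    (by
      apply MvPolynomial.algHom_ext
      intro i
      rw [AlgHom.comp_apply, shiftHom_X, map_add, shiftHom_X, AlgHom.id_apply]
      have : shiftHom N (C ((-N) i)) = C ((-N) i) := by
        rw [← MvPolynomial.algebraMap_eq]; exact AlgHom.commutes _ _
      rw [this, Pi.neg_apply, map_neg]
      ring)
    (by
      apply MvPolynomial.algHom_ext
      intro i
      rw [AlgHom.comp_apply, shiftHom_X, map_add, shiftHom_X, AlgHom.id_apply]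
      have : shiftHom (-N) (C (N i)) = C (N i) := by
        rw [← MvPolynomial.algebraMap_eq]; exact AlgHom.commutes _ _
      rw [this, Pi.neg_apply, map_neg]
      ring)

lemma shift_apply (N : σ → K) (φ : MvPolynomial σ K) : shift N φ = shiftHom N φ := rfl

lemma constantCoeff_shift (N : σ → K) (φ : MvPolynomial σ K) :
    constantCoeff (shift N φ) = eval N φ := by
  rw [shift_apply]
  have h : (constantCoeff.comp ((shiftHom N : MvPolynomial σ K →ₐ[K] MvPolynomial σ K) :
      MvPolynomial σ K →+* MvPolynomial σ K)) = eval N := by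
    apply MvPolynomial.ringHom_ext
    · intro r
      rw [RingHom.comp_apply, eval_C]
      have : shiftHom N (C r) = C r := by
        rw [← MvPolynomial.algebraMap_eq]; exact AlgHom.commutes _ _
      change constantCoeff (shiftHom N (C r)) = r
      rw [this, constantCoeff_C]
    · intro i
      rw [RingHom.comp_apply, eval_X]
      change constantCoeff (shiftHom N (X i)) = N i
      rw [shiftHom_X, map_add, constantCoeff_X, constantCoeff_C, zero_add]
  exact RingHom.congr_fun h φ

variable {p : ℕ} [Fact p.Prime] [CharP K p]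

/-- If `T(f)` vanishes at `N`, then `c̃ f̃ ^ (q - 1) ∈ M_q` for all `q` and all `c ∈ T(f)`. -/
lemma shift_mem_Mq {f : MvPolynomial σ K} {N : σ → K} (hT : ∀ c ∈ TT p f, eval N c = 0)
    {c : MvPolynomial σ K} (hc : c ∈ TT p f) (e : ℕ) :
    shift N c * shift N f ^ (p ^ e - 1) ∈ Mq σ K (p ^ e) := by
  classical
  have hq : 0 < p ^ e := pow_pos (Fact.out : p.Prime).pos e
  by_contra hcon
  rw [mem_Mq] at hcon
  push Not at hcon
  obtain ⟨α, hα, hne⟩ := hcon
  obtain ⟨θ, hθ, hθ1⟩ := exists_root_linear (p := p) e hne
  set π := extract (p ^ e) hq α θ with hπ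
  have hπl : RootLinear (p ^ e) π := extract_rootLinear e hq hα hθ
  let π' : MvPolynomial σ K →+ MvPolynomial σ K :=
    ((shift N).symm.toRingEquiv.toAddMonoidHom.comp π).comp (shift N).toRingEquiv.toAddMonoidHom
  have hπ'a : ∀ x, π' x = (shift N).symm (π (shift N x)) := fun x => rfl
  have hπ' : RootLinear (p ^ e) π' := by
    intro g h
    rw [hπ'a, hπ'a, map_mul, map_pow, hπl, map_mul, AlgEquiv.symm_apply_apply]
  have h1 := hT _ (TT_stable hc e hπ')
  rw [← constantCoeff_shift, hπ'a, AlgEquiv.apply_symm_apply, map_mul, map_pow,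
    constantCoeff_eq, hπ, coeff_extract, smul_zero, add_zero, hθ1] at h1
  exact one_ne_zero h1

/-- **Local theorem.** Suppose `T(f)` vanishes at `N` and that the lowest weight form of `f`
at `N` is a squarefree coprime binomial. Then `T(f) ⊆ (f)`. -/
theorem TT_le_span_of_local [Finite σ] {f : MvPolynomial σ K} {d : ℕ} (hf : f.IsHomogeneous d)
    (hd : 0 < d) (hf0 : f ≠ 0) {N : σ → K} (hT : ∀ c ∈ TT p f, eval N c = 0)
    {w : σ → ℕ} {D : ℕ} {u v : σ →₀ ℕ} {a b : K} (ha : a ≠ 0) (hb : b ≠ 0) {i₀ : σ}
    (hu0 : u i₀ = 1) (hu : ∀ i, u i ≤ 1) (hv : ∀ i, v i ≤ 1) (huv : ∀ i, u i = 0 ∨ v i = 0)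
    (hv0 : v ≠ 0) (hwu : Finsupp.weight w u = D) (hwv : Finsupp.weight w v = D)
    (hlow : shift N f - (monomial u a + monomial v b) ∈ Fil K w (D + 1)) :
    TT p f ≤ Ideal.span {f} := by
  classical
  have hq : ∀ e, 0 < p ^ e := fun e => pow_pos (Fact.out : p.Prime).pos e
  set bin : MvPolynomial σ K := monomial u a + monomial v b with hbin
  have hbinh : IsWeightedHomogeneous w bin D :=
    (isWeightedHomogeneous_monomial w u a hwu).add (isWeightedHomogeneous_monomial w v b hwv)
  set F := shift N f with hF
  have hFD : F ∈ Fil K w D := by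
    have h1 : F = bin + (F - bin) := by ring
    rw [h1]
    exact Ideal.add_mem _ (isWeightedHomogeneous_mem_Fil hbinh) (Fil_mono (Nat.le_succ D) hlow)
  have hFc : weightedHomogeneousComponent w D F = bin := by
    have h1 : F = bin + (F - bin) := by ring
    rw [h1, map_add, component_eq_zero_of_mem (Nat.lt_succ_self D) hlow, add_zero]
    exact hbinh.weightedHomogeneousComponent_same
  have hf00 : constantCoeff f = 0 := by
    rw [constantCoeff_eq]
    apply hf.coeff_eq_zero
    rw [map_zero]
    omega
  have hfT : f ∈ TT p f := dvd_mem_TT hf00 dvd_rfl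
  -- lowest forms of elements of `T` are divisible by `bin`
  have step : ∀ k : ℕ, ∀ c ∈ TT p f, shift N c ∈ Fil K w k →
      ∃ x : MvPolynomial σ K, shift N c - x * F ∈ Fil K w (k + 1) := by
    intro k c hc hck
    set h := weightedHomogeneousComponent w k (shift N c) with hh
    have hdiv : bin ∣ h := by
      apply binomial_dvd (p := p) ha hb hu0 hu hv huv hv0
      intro e
      have h1 := Mq_component (w := w) (shift_mem_Mq hT hc e) (k + (p ^ e - 1) * D)
      rwa [component_mul hck (Fil_pow hFD _), component_pow hFD, hFc] at h1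
    obtain ⟨g, hg⟩ := hdiv
    rcases lt_or_ge k D with hkD | hkD
    · refine ⟨0, ?_⟩
      rw [zero_mul, sub_zero]
      apply mem_Fil_succ hck
      have h1 : h ∈ Fil K w D := by
        rw [hg]
        exact Ideal.mul_mem_right _ _ (isWeightedHomogeneous_mem_Fil hbinh)
      have h2 := component_eq_zero_of_mem hkD h1
      rwa [hh, (weightedHomogeneousComponent_isWeightedHomogeneous
        _ _).weightedHomogeneousComponent_same] at h2
    · set g₀ := weightedHomogeneousComponent w (k - D) g with hg₀
      refine ⟨g₀, ?_⟩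
      have hk : k - D + D = k := by omega
      have hmem : g₀ * F ∈ Fil K w k := by
        have := Fil_mul (component_mem (k - D) g) hFD
        rwa [hk] at this
      apply mem_Fil_succ (Ideal.sub_mem _ hck hmem)
      rw [map_sub, ← hh]
      -- the component of `g₀ F`
      have h1 : weightedHomogeneousComponent w k (g₀ * F) = g₀ * bin := by
        have h2 := component_mul (component_mem (k - D) g) hFD
        rw [hk, (weightedHomogeneousComponent_isWeightedHomogeneous
          _ _).weightedHomogeneousComponent_same, hFc] at h2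
        exact h2
      have h3 : h = g₀ * bin := by
        -- take the component of weight `k` in `h = bin * g`
        have h4 : weightedHomogeneousComponent w k h = h :=
          (weightedHomogeneousComponent_isWeightedHomogeneous
            _ _).weightedHomogeneousComponent_same
        rw [← h4, hg]
        apply MvPolynomial.ext
        intro m
        rw [coeff_weightedHomogeneousComponent]
        by_cases hm : Finsupp.weight w m = k
        · rw [if_pos hm, mul_comm bin g, hbin, mul_add, mul_add, coeff_add, coeff_add,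
            coeff_mul_monomial', coeff_mul_monomial', coeff_mul_monomial', coeff_mul_monomial']
          congr 1
          · by_cases hum : u ≤ m
            · rw [if_pos hum, if_pos hum, hg₀, coeff_weightedHomogeneousComponent, if_pos]
              have h5 : Finsupp.weight w (m - u) + Finsupp.weight w u = Finsupp.weight w m := by
                rw [← map_add, tsub_add_cancel_of_le hum]
              omega
            · rw [if_neg hum, if_neg hum]
          · by_cases hum : v ≤ m
            · rw [if_pos hum, if_pos hum, hg₀, coeff_weightedHomogeneousComponent, if_pos]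
              have h5 : Finsupp.weight w (m - v) + Finsupp.weight w v = Finsupp.weight w m := by
                rw [← map_add, tsub_add_cancel_of_le hum]
              omega
            · rw [if_neg hum, if_neg hum]
        · rw [if_neg hm]
          have h5 : IsWeightedHomogeneous w (g₀ * bin) (k - D + D) :=
            (weightedHomogeneousComponent_isWeightedHomogeneous _ _).mul hbinh
          rw [hk] at h5
          exact (h5.coeff_eq_zero m hm).symm
      rw [h1, ← h3, sub_self]
  -- iterate
  have iter : ∀ k : ℕ, ∀ c ∈ TT p f, ∃ x : MvPolynomial σ K,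
      shift N c - x * F ∈ Fil K w k := by
    intro k
    induction k with
    | zero => exact fun c _ => ⟨0, mem_Fil_zero _⟩
    | succ k ih =>
      intro c hc
      obtain ⟨x, hx⟩ := ih c hc
      set y := (shift N).symm x with hy
      have hxy : shift N y = x := AlgEquiv.apply_symm_apply _ _
      have hc' : c - y * f ∈ TT p f := Ideal.sub_mem _ hc (Ideal.mul_mem_left _ _ hfT)
      have h1 : shift N (c - y * f) = shift N c - x * F := by
        rw [map_sub, map_mul, hxy]
      rw [← h1] at hx
      obtain ⟨z, hz⟩ := step k _ hc' hx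
      refine ⟨x + z, ?_⟩
      rw [h1] at hz
      have h2 : shift N c - (x + z) * F = shift N c - x * F - z * F := by ring
      rw [h2]
      exact hz
  -- Krull
  have := Fintype.ofFinite σ
  obtain ⟨B, hB0, hB⟩ : ∃ B, 0 < B ∧ ∀ i, w i ≤ B := by
    refine ⟨∑ i, w i + 1, by omega, fun i => ?_⟩
    have := Finset.single_le_sum (f := w) (fun _ _ => Nat.zero_le _) (Finset.mem_univ i)
    omega
  intro c hc
  set R := MvPolynomial σ K ⧸ Ideal.span {F} with hR
  let mk : MvPolynomial σ K →+* R := Ideal.Quotient.mk (Ideal.span {F})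
  set I : Ideal R := (idealOfVars σ K).map mk with hI
  have hinf : mk (shift N c) ∈ (⨅ i : ℕ, I ^ i • ⊤ : Submodule R R) := by
    rw [Submodule.mem_iInf]
    intro k
    obtain ⟨x, hx⟩ := iter (B * k) c hc
    have h1 : mk (shift N c) = mk (shift N c - x * F) := by
      rw [map_sub, map_mul]
      have : mk F = 0 := Ideal.Quotient.eq_zero_iff_mem.2 (Ideal.mem_span_singleton_self F)
      rw [this, mul_zero, sub_zero]
    rw [h1, smul_eq_mul, Ideal.mul_top, hI, ← Ideal.map_pow]
    exact Ideal.mem_map_of_mem _ (Fil_le_pow hB0 hB k hx)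
  obtain ⟨⟨r, hrI⟩, hr⟩ := (Ideal.mem_iInf_smul_pow_eq_bot_iff I _).1 hinf
  obtain ⟨r₁, hr₁, hrr⟩ := (Ideal.mem_map_iff_of_surjective mk Ideal.Quotient.mk_surjective).1 hrI
  have h1 : F ∣ (1 - r₁) * shift N c := by
    rw [← Ideal.mem_span_singleton, ← Ideal.Quotient.eq_zero_iff_mem]
    change mk ((1 - r₁) * shift N c) = 0
    have h2 : r • mk (shift N c) = mk (shift N c) := hr
    rw [← hrr, smul_eq_mul] at h2
    rw [map_mul, map_sub, map_one, sub_mul, h2, one_mul, sub_self]
  obtain ⟨t, ht⟩ := h1
  set s := (shift N).symm (1 - r₁) with hs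
  have hst : shift N s = 1 - r₁ := AlgEquiv.apply_symm_apply _ _
  have h2 : f ∣ s * c := by
    refine ⟨(shift N).symm t, ?_⟩
    apply (shift N).injective
    rw [map_mul, map_mul, hst, AlgEquiv.apply_symm_apply, ht]
  have hs1 : eval N s = 1 := by
    rw [← constantCoeff_shift, hst, map_sub, map_one]
    have h3 : constantCoeff r₁ = 0 := by
      have h4 : r₁ ∈ idealOfVars σ K ^ 1 := by rwa [pow_one]
      rw [mem_pow_idealOfVars_iff'] at h4
      rw [constantCoeff_eq]
      exact h4 0 (by rw [map_zero]; exact Nat.zero_lt_one)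
    rw [h3, sub_zero]
  have hrel : IsRelPrime f s := by
    intro g hgf hgs
    by_contra hunit
    have h3 : constantCoeff g = 0 := by
      by_contra hne
      exact hunit (isUnit_of_dvd_homogeneous hf hf0 hgf hne)
    have h4 := hT g (dvd_mem_TT h3 hgf)
    obtain ⟨g', hg'⟩ := hgs
    rw [hg', map_mul, h4, zero_mul] at hs1
    exact zero_ne_one hs1
  rw [Ideal.mem_span_singleton]
  exact hrel.dvd_of_dvd_mul_left h2

end Pool.Agent.FReg
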