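import Pool.Agent.FReg.Bidiag
import Pool.Agent.FReg.Local
import Pool.Agent.FReg.Descent

/-!
# The lowest form of `P(X)` at the regular nilpotent matrix
-/

namespace Pool.Agent.FReg

open MvPolynomial

variable {K : Type*} [Field K]

/-- The costs of the variables. -/
def cost (t : ℕ) (i : Fin (t + 2) × Fin (t + 2)) : ℕ :=
  if (i.2 : ℕ) = 0 ∧ (i.1 : ℕ) < t + 1 then (if (i.1 : ℕ) = 0 then t + 1 else t + 2)
  else if (i.2 : ℕ) = 1 ∧ 1 ≤ (i.1 : ℕ) then (if (i.1 : ℕ) = t + 1 then t + 1 else t + 2)
  else 2 * (t + 1)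

/-- The variables in the first column. -/
noncomputable def UU (K : Type*) [Field K] (t r : ℕ) :
    MvPolynomial (Fin (t + 2) × Fin (t + 2)) K :=
  if h : r < t + 1 then X (⟨r, by omega⟩, 0) else 0

/-- The variables in the second column. -/
noncomputable def VV (K : Type*) [Field K] (t r : ℕ) :
    MvPolynomial (Fin (t + 2) × Fin (t + 2)) K :=
  if h : 1 ≤ r ∧ r < t + 2 then X (⟨r, h.2⟩, 1) else 0

lemma X_mem_Fil {σ : Type*} (w : σ → ℕ) (i : σ) : (X i : MvPolynomial σ K) ∈ Fil K w (w i) :=
  isWeightedHomogeneous_mem_Fil (isWeightedHomogeneous_X _ _ _)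

lemma le_cost (t : ℕ) (i : Fin (t + 2) × Fin (t + 2)) : t + 1 ≤ cost t i := by
  unfold cost
  split_ifs <;> omega

lemma UU_mem (t r : ℕ) : UU K t r ∈ Fil K (cost t) (t + 1) := by
  unfold UU
  split_ifs with h
  · exact Fil_mono (le_cost t _) (X_mem_Fil _ _)
  · exact Ideal.zero_mem _

lemma VV_mem (t r : ℕ) : VV K t r ∈ Fil K (cost t) (t + 1) := by
  unfold VV
  split_ifs with h
  · exact Fil_mono (le_cost t _) (X_mem_Fil _ _)
  · exact Ideal.zero_mem _

lemma UU_mem' (t r : ℕ) (hr : 1 ≤ r) : UU K t r ∈ Fil K (cost t) (t + 2) := by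
  unfold UU
  split_ifs with h
  · refine Fil_mono ?_ (X_mem_Fil _ _)
    unfold cost
    rw [if_pos ⟨rfl, h⟩, if_neg]
    simp only
    omega
  · exact Ideal.zero_mem _

lemma VV_mem' (t r : ℕ) (hr : r ≤ t) : VV K t r ∈ Fil K (cost t) (t + 2) := by
  unfold VV
  split_ifs with h
  · refine Fil_mono ?_ (X_mem_Fil _ _)
    unfold cost
    rw [if_neg, if_pos ⟨rfl, h.1⟩, if_neg]
    · simp only
      omega
    · rintro ⟨h1, _⟩
      simp at h1
  · exact Ideal.zero_mem _

/-- The variables modulo second order. -/
lemma X_congr (t : ℕ) (i j : Fin (t + 2)) :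
    (X (i, j) : MvPolynomial (Fin (t + 2) × Fin (t + 2)) K) -
      ((if (j : ℕ) = 0 then UU K t i else 0) + (if (j : ℕ) = 1 then VV K t i else 0)) ∈
      Fil K (cost t) (2 * (t + 1)) := by
  by_cases h0 : (j : ℕ) = 0 ∧ (i : ℕ) < t + 1
  · have hj : j = 0 := Fin.ext h0.1
    subst hj
    rw [if_pos (show ((0 : Fin (t + 2)) : ℕ) = 0 from rfl),
      if_neg (show ¬ ((0 : Fin (t + 2)) : ℕ) = 1 by simp), add_zero, UU, dif_pos h0.2, sub_self]
    exact Ideal.zero_mem _
  by_cases h1 : (j : ℕ) = 1 ∧ 1 ≤ (i : ℕ)
  · have hj : j = 1 := Fin.ext (by rw [h1.1]; simp)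
    subst hj
    rw [if_neg (show ¬ ((1 : Fin (t + 2)) : ℕ) = 0 by simp),
      if_pos (show ((1 : Fin (t + 2)) : ℕ) = 1 by simp), zero_add, VV, dif_pos ⟨h1.2, i.2⟩,
      sub_self]
    exact Ideal.zero_mem _
  have h2 : (if (j : ℕ) = 0 then UU K t i else 0) = 0 := by
    split_ifs with h
    · rw [UU, dif_neg]
      intro h3
      exact h0 ⟨h, h3⟩
    · rfl
  have h3 : (if (j : ℕ) = 1 then VV K t i else 0) = 0 := by
    split_ifs with h
    · rw [VV, dif_neg]
      rintro ⟨h4, _⟩
      exact h1 ⟨h, h4⟩
    · rfl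
  rw [h2, h3, add_zero, sub_zero]
  refine Fil_mono ?_ (X_mem_Fil _ _)
  unfold cost
  rw [if_neg h0, if_neg h1]

/-- The generic matrix translated to the regular nilpotent matrix. -/
noncomputable def XN (K : Type*) [Field K] (t : ℕ) :
    Matrix (Fin (t + 2)) (Fin (t + 2)) (MvPolynomial (Fin (t + 2) × Fin (t + 2)) K) :=
  Matrix.of fun i j => X (i, j) + C (nilPt (t + 2) K (i, j))

/-- The entries of the powers modulo second order. -/
noncomputable def TT2 (K : Type*) [Field K] (t k i j : ℕ) :
    MvPolynomial (Fin (t + 2) × Fin (t + 2)) K :=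
  (if j < k then UU K t (i + k - 1 - j) else 0) +
    (if 1 ≤ j ∧ j ≤ k then VV K t (i + k - j) else 0)

lemma TT2_mem (t k i j : ℕ) : TT2 K t k i j ∈ Fil K (cost t) (t + 1) := by
  unfold TT2
  apply Ideal.add_mem
  · split_ifs
    · exact UU_mem _ _
    · exact Ideal.zero_mem _
  · split_ifs
    · exact VV_mem _ _
    · exact Ideal.zero_mem _

lemma XN_pow (t k : ℕ) (i j : Fin (t + 2)) :
    (XN K t ^ k) i j - ((if (j : ℕ) = i + k then 1 else 0) + TT2 K t k i j) ∈
      Fil K (cost t) (2 * (t + 1)) := by
  classical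
  induction k generalizing i j with
  | zero =>
    rw [pow_zero, Matrix.one_apply]
    have h1 : (if (j : ℕ) = (i : ℕ) + 0 then (1 : MvPolynomial (Fin (t + 2) × Fin (t + 2)) K)
        else 0) = if i = j then 1 else 0 := by
      by_cases h : i = j
      · rw [if_pos h, if_pos (by rw [h, add_zero])]
      · rw [if_neg h, if_neg]
        intro h'
        exact h (Fin.ext (by omega))
    have h2 : TT2 K t 0 i j = 0 := by
      rw [TT2, if_neg (by omega), if_neg (by omega), add_zero]
    rw [h1, h2, add_zero, sub_self]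
    exact Ideal.zero_mem _
  | succ k ih =>
    rw [pow_succ', Matrix.mul_apply]
    -- split the sum
    have e1 : ∑ l, XN K t i l * (XN K t ^ k) l j =
        ∑ l, X (i, l) * (XN K t ^ k) l j +
        ∑ l : Fin (t + 2), (if (i : ℕ) + 1 = (l : ℕ) then (XN K t ^ k) l j else 0) := by
      rw [← Finset.sum_add_distrib]
      refine Finset.sum_congr rfl fun l _ => ?_
      rw [XN, Matrix.of_apply, add_mul]
      congr 1
      rw [nilPt]
      simp only
      split_ifs
      · rw [map_one, one_mul]
      · rw [map_zero, zero_mul]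
    -- first part
    have e2 : ∑ l, X (i, l) * (XN K t ^ k) l j -
        ((if (j : ℕ) = k then UU K t i else 0) + (if (j : ℕ) = k + 1 then VV K t i else 0)) ∈
        Fil K (cost t) (2 * (t + 1)) := by
      have e3 : ∑ l, X (i, l) * (XN K t ^ k) l j -
          ∑ l : Fin (t + 2), X (i, l) * (if (j : ℕ) = (l : ℕ) + k then 1 else 0) ∈
          Fil K (cost t) (2 * (t + 1)) := by
        rw [← Finset.sum_sub_distrib]
        refine Ideal.sum_mem _ fun l _ => ?_
        rw [← mul_sub]
        have h1 : (XN K t ^ k) l j - (if (j : ℕ) = (l : ℕ) + k then 1 else 0) ∈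
            Fil K (cost t) (t + 1) := by
          have h2 := Fil_mono (K := K) (w := cost t) (show t + 1 ≤ 2 * (t + 1) by omega) (ih l j)
          have h3 := Ideal.add_mem _ h2 (TT2_mem (K := K) t k l j)
          have h4 : (XN K t ^ k) l j - (if (j : ℕ) = (l : ℕ) + k then 1 else 0) =
            (XN K t ^ k) l j - ((if (j : ℕ) = (l : ℕ) + k then 1 else 0) + TT2 K t k l j) +
              TT2 K t k l j := by ring
          rw [h4]
          exact h3
        have h5 := Fil_mul (Fil_mono (le_cost t (i, l)) (X_mem_Fil (K := K) (cost t) (i, l))) h1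
        rwa [← two_mul] at h5
      have e4 : ∑ l : Fin (t + 2), (X (i, l) : MvPolynomial (Fin (t + 2) × Fin (t + 2)) K) *
          (if (j : ℕ) = (l : ℕ) + k then 1 else 0) -
          ((if (j : ℕ) = k then UU K t i else 0) + (if (j : ℕ) = k + 1 then VV K t i else 0)) ∈
          Fil K (cost t) (2 * (t + 1)) := by
        by_cases hjk : k ≤ (j : ℕ)
        · have hj := j.2
          have hl : (j : ℕ) - k < t + 2 := by omega
          rw [Finset.sum_eq_single (⟨(j : ℕ) - k, hl⟩ : Fin (t + 2))]
          · rw [if_pos (by simp only; omega), mul_one]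
            have h1 := X_congr (K := K) t i ⟨(j : ℕ) - k, hl⟩
            have h2 : (if (j : ℕ) = k then UU K t i else 0) =
                (if (((⟨(j : ℕ) - k, hl⟩ : Fin (t + 2)) : ℕ)) = 0 then UU K t i else 0) := by
              apply if_congr _ rfl rfl
              simp only
              omega
            have h3 : (if (j : ℕ) = k + 1 then VV K t i else 0) =
                (if (((⟨(j : ℕ) - k, hl⟩ : Fin (t + 2)) : ℕ)) = 1 then VV K t i else 0) := by
              apply if_congr _ rfl rfl
              simp only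
              omega
            rw [h2, h3]
            exact h1
          · intro b _ hb
            rw [if_neg, mul_zero]
            intro h
            apply hb
            apply Fin.ext
            simp only
            omega
          · intro h
            exact absurd (Finset.mem_univ _) h
        · rw [if_neg (by omega), if_neg (by omega), add_zero, sub_zero]
          have : ∑ l : Fin (t + 2), (X (i, l) : MvPolynomial (Fin (t + 2) × Fin (t + 2)) K) *
            (if (j : ℕ) = (l : ℕ) + k then 1 else 0) = 0 := by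
            refine Finset.sum_eq_zero fun l _ => ?_
            rw [if_neg (by omega), mul_zero]
          rw [this]
          exact Ideal.zero_mem _
      have h6 := Ideal.add_mem _ e3 e4
      have h7 : ∀ A B C : MvPolynomial (Fin (t + 2) × Fin (t + 2)) K,
          A - B + (B - C) = A - C := by intro A B C; ring
      rwa [h7] at h6
    -- second part
    have e5 : ∑ l : Fin (t + 2), (if (i : ℕ) + 1 = (l : ℕ) then (XN K t ^ k) l j else 0) -
        ((if (j : ℕ) = (i : ℕ) + (k + 1) then 1 else 0) + (if (j : ℕ) < k then UU K t (i + k - j)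
          else 0) + (if 1 ≤ (j : ℕ) ∧ (j : ℕ) ≤ k then VV K t (i + (k + 1) - j) else 0)) ∈
        Fil K (cost t) (2 * (t + 1)) := by
      by_cases hi : (i : ℕ) + 1 < t + 2
      · rw [Finset.sum_eq_single (⟨(i : ℕ) + 1, hi⟩ : Fin (t + 2))]
        · rw [if_pos rfl]
          have h1 := ih ⟨(i : ℕ) + 1, hi⟩ j
          rw [TT2] at h1
          simp only at h1
          have h2 : (i : ℕ) + 1 + k - 1 - (j : ℕ) = (i : ℕ) + k - (j : ℕ) := by omega
          have h3 : (i : ℕ) + 1 + k - (j : ℕ) = (i : ℕ) + (k + 1) - (j : ℕ) := by omega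
          have h4 : (i : ℕ) + 1 + k = (i : ℕ) + (k + 1) := by omega
          rw [h2, h3, h4, ← add_assoc] at h1
          exact h1
        · intro b _ hb
          rw [if_neg]
          intro h
          apply hb
          apply Fin.ext
          simp only
          omega
        · intro h
          exact absurd (Finset.mem_univ _) h
      · have hi' := i.2
        have hj' := j.2
        have h1 : ∑ l : Fin (t + 2), (if (i : ℕ) + 1 = (l : ℕ) then (XN K t ^ k) l j else 0) = 0 := by
          refine Finset.sum_eq_zero fun l _ => ?_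
          have := l.2
          rw [if_neg (by omega)]
        have h2 : (if (j : ℕ) < k then UU K t (i + k - j) else 0) = 0 := by
          split_ifs with h
          · rw [UU, dif_neg (by omega)]
          · rfl
        have h3 : (if 1 ≤ (j : ℕ) ∧ (j : ℕ) ≤ k then VV K t (i + (k + 1) - j) else 0) = 0 := by
          split_ifs with h
          · rw [VV, dif_neg (by omega)]
          · rfl
        rw [h1, h2, h3, if_neg (by omega), add_zero, add_zero, sub_self]
        exact Ideal.zero_mem _
    rw [e1]
    have h8 := Ideal.add_mem _ e2 e5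
    have h9 : (if (j : ℕ) = (i : ℕ) + (k + 1) then 1 else 0) + TT2 K t (k + 1) i j =
        ((if (j : ℕ) = k then UU K t i else 0) + (if (j : ℕ) = k + 1 then VV K t i else 0)) +
        ((if (j : ℕ) = (i : ℕ) + (k + 1) then 1 else 0) + (if (j : ℕ) < k then UU K t (i + k - j)
          else 0) + (if 1 ≤ (j : ℕ) ∧ (j : ℕ) ≤ k then VV K t (i + (k + 1) - j) else 0)) := by
      have hU : (if (j : ℕ) < k + 1 then UU K t (i + (k + 1) - 1 - j) else 0) =
          (if (j : ℕ) = k then UU K t i else 0) + (if (j : ℕ) < k then UU K t (i + k - j)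
          else 0) := by
        by_cases h1 : (j : ℕ) = k
        · rw [if_pos (by omega), if_pos h1, if_neg (by omega), add_zero]
          congr 1
          omega
        · by_cases h2 : (j : ℕ) < k
          · rw [if_pos (by omega), if_neg h1, if_pos h2, zero_add]
            congr 1
          · rw [if_neg (by omega), if_neg h1, if_neg h2, add_zero]
      have hV : (if 1 ≤ (j : ℕ) ∧ (j : ℕ) ≤ k + 1 then VV K t (i + (k + 1) - j) else 0) =
          (if (j : ℕ) = k + 1 then VV K t i else 0) +
          (if 1 ≤ (j : ℕ) ∧ (j : ℕ) ≤ k then VV K t (i + (k + 1) - j) else 0) := by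
        by_cases h1 : (j : ℕ) = k + 1
        · rw [if_pos (by omega), if_pos h1, if_neg (by omega), add_zero]
          congr 1
          omega
        · by_cases h2 : 1 ≤ (j : ℕ) ∧ (j : ℕ) ≤ k
          · rw [if_pos (by omega), if_neg h1, if_pos h2, zero_add]
          · rw [if_neg (by omega), if_neg h1, if_neg h2, add_zero]
      rw [TT2, hU, hV]
      ring
    rw [h9]
    have h10 : ∀ A B C D : MvPolynomial (Fin (t + 2) × Fin (t + 2)) K,
        A - C + (B - D) = A + B - (C + D) := by intro A B C D; ring
    rwa [h10] at h8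

end Pool.Agent.FReg
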