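import Pool.Agent.FReg.Filtration

/-!
# A bidiagonal determinant, and determinants modulo the filtration
-/

namespace Pool.Agent.FReg

open MvPolynomial

/-- The recursively defined value of the determinant in `det_bidiag`. -/
def frec {R : Type*} [CommRing R] (u v r : ℕ → R) : ℕ → R
  | 0 => r 0
  | m + 1 => u (m + 1) * frec u v r m + (-1) ^ (m + 1) * r (m + 1) * ∏ l ∈ Finset.range (m + 1), v l

lemma det_bidiag {R : Type*} [CommRing R] (u v r : ℕ → R) (m : ℕ) :
    (Matrix.of fun i k : Fin (m + 1) => if (i : ℕ) = 0 then r k else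
      (if (i : ℕ) = (k : ℕ) then u k else 0) + (if (i : ℕ) = (k : ℕ) + 1 then v k else 0)).det =
      frec u v r m := by
  classical
  induction m with
  | zero =>
    rw [Matrix.det_fin_one]
    simp [frec]
  | succ m ih =>
    rw [Matrix.det_succ_column _ (Fin.last (m + 1)), Fin.sum_univ_castSucc]
    have h0 : ∀ i : Fin (m + 1), i ≠ 0 → (-1 : R) ^ ((i.castSucc : Fin (m + 1 + 1)) +
        (Fin.last (m + 1) : Fin (m + 1 + 1)) : ℕ) *
        (Matrix.of fun i k : Fin (m + 1 + 1) => if (i : ℕ) = 0 then r k else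
        (if (i : ℕ) = (k : ℕ) then u k else 0) + (if (i : ℕ) = (k : ℕ) + 1 then v k else 0))
          i.castSucc (Fin.last (m + 1)) *
        ((Matrix.of fun i k : Fin (m + 1 + 1) => if (i : ℕ) = 0 then r k else
        (if (i : ℕ) = (k : ℕ) then u k else 0) + (if (i : ℕ) = (k : ℕ) + 1 then v k else 0)).submatrix
          i.castSucc.succAbove (Fin.last (m + 1)).succAbove).det = 0 := by
      intro i hi
      have h1 : (i : ℕ) ≠ 0 := fun h => hi (Fin.ext h)
      have h2 := i.2
      have : (Matrix.of fun i k : Fin (m + 1 + 1) => if (i : ℕ) = 0 then r k else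
        (if (i : ℕ) = (k : ℕ) then u k else 0) + (if (i : ℕ) = (k : ℕ) + 1 then v k else 0))
          i.castSucc (Fin.last (m + 1)) = 0 := by
        rw [Matrix.of_apply, Fin.val_castSucc, Fin.val_last, if_neg h1, if_neg (by omega),
          if_neg (by omega), add_zero]
      rw [this, mul_zero, zero_mul]
    rw [Finset.sum_eq_single 0 (fun i _ hi => h0 i hi)
      (fun h => absurd (Finset.mem_univ _) h), frec, add_comm]
    congr 1
    · -- the corner term
      rw [Fin.succAbove_last, Matrix.of_apply, Fin.val_last, if_neg (by omega), if_pos rfl,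
        if_neg (by omega), add_zero]
      have h3 : (-1 : R) ^ (m + 1 + (m + 1)) = 1 := by
        rw [← two_mul, pow_mul]
        simp
      rw [h3, one_mul, ← ih]
      rfl
    · -- the first row term
      rw [Matrix.of_apply, Fin.val_castSucc, Fin.val_zero, if_pos rfl, Fin.val_last, zero_add]
      congr 1
      rw [Fin.succAbove_last, Fin.castSucc_zero, Fin.succAbove_zero,
        Matrix.det_of_isUpperTriangular]
      · rw [Finset.prod_range]
        refine Finset.prod_congr rfl fun i _ => ?_
        rw [Matrix.submatrix_apply, Matrix.of_apply, Fin.val_succ, Fin.val_castSucc,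
          if_neg (by omega), if_neg (by omega), if_pos rfl, zero_add]
      · intro i j hij
        have h4 : (j : ℕ) < (i : ℕ) := hij
        rw [Matrix.submatrix_apply, Matrix.of_apply, Fin.val_succ, Fin.val_castSucc,
          if_neg (by omega), if_neg (by omega), if_neg (by omega), add_zero]

variable {σ : Type*} {K : Type*} [Field K]

lemma prod_mem_Fil {ι : Type*} {w : σ → ℕ} {a : ℕ} (s : Finset ι) {x : ι → MvPolynomial σ K}
    (hx : ∀ i ∈ s, x i ∈ Fil K w a) : ∏ i ∈ s, x i ∈ Fil K w (s.card * a) := by
  classical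
  induction s using Finset.induction_on with
  | empty => simpa using mem_Fil_zero _
  | insert i s hi ih =>
    rw [Finset.prod_insert hi, Finset.card_insert_of_notMem hi]
    have h1 := Fil_mul (hx i (Finset.mem_insert_self i s))
      (ih fun j hj => hx j (Finset.mem_insert_of_mem hj))
    rwa [show a + s.card * a = (s.card + 1) * a by ring] at h1

lemma prod_sub_prod_mem {ι : Type*} {w : σ → ℕ} {a : ℕ} (s : Finset ι)
    {x y : ι → MvPolynomial σ K} (hx : ∀ i ∈ s, x i ∈ Fil K w a) (hy : ∀ i ∈ s, y i ∈ Fil K w a)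
    (hxy : ∀ i ∈ s, x i - y i ∈ Fil K w (2 * a)) :
    ∏ i ∈ s, x i - ∏ i ∈ s, y i ∈ Fil K w ((s.card + 1) * a) := by
  classical
  induction s using Finset.induction_on with
  | empty => simp
  | insert i s hi ih =>
    rw [Finset.prod_insert hi, Finset.prod_insert hi, Finset.card_insert_of_notMem hi]
    have h1 := Fil_mul (hx i (Finset.mem_insert_self i s))
      (ih (fun j hj => hx j (Finset.mem_insert_of_mem hj))
        (fun j hj => hy j (Finset.mem_insert_of_mem hj))
        (fun j hj => hxy j (Finset.mem_insert_of_mem hj)))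
    have h2 := Fil_mul (hxy i (Finset.mem_insert_self i s))
      (prod_mem_Fil s (fun j hj => hy j (Finset.mem_insert_of_mem hj)))
    rw [show a + (s.card + 1) * a = (s.card + 1 + 1) * a by ring] at h1
    rw [show 2 * a + s.card * a = (s.card + 1 + 1) * a by ring] at h2
    have h3 : x i * ∏ i ∈ s, x i - y i * ∏ i ∈ s, y i =
        x i * (∏ i ∈ s, x i - ∏ i ∈ s, y i) + (x i - y i) * ∏ i ∈ s, y i := by ring
    rw [h3]
    exact Ideal.add_mem _ h1 h2

lemma det_sub_det_mem {w : σ → ℕ} {a m : ℕ} {A B : Matrix (Fin m) (Fin m) (MvPolynomial σ K)}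
    (hA : ∀ i j, A i j ∈ Fil K w a) (hB : ∀ i j, B i j ∈ Fil K w a)
    (hAB : ∀ i j, A i j - B i j ∈ Fil K w (2 * a)) :
    A.det - B.det ∈ Fil K w ((m + 1) * a) := by
  classical
  rw [Matrix.det_apply', Matrix.det_apply', ← Finset.sum_sub_distrib]
  refine Ideal.sum_mem _ fun τ _ => ?_
  rw [← mul_sub]
  apply Ideal.mul_mem_left
  have := prod_sub_prod_mem (w := w) (a := a) (Finset.univ : Finset (Fin m))
    (x := fun i => A (τ i) i) (y := fun i => B (τ i) i) (fun i _ => hA _ _) (fun i _ => hB _ _)
    (fun i _ => hAB _ _)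
  rwa [Finset.card_univ, Fintype.card_fin] at this

end Pool.Agent.FReg
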