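import Pool.Agent.FReg.Defs
import Pool.Agent.FReg.Cartier

/-!
# A criterion for F-regularity of a homogeneous hypersurface
-/

namespace Pool.Agent.FReg

open MvPolynomial

variable {σ : Type*} {K : Type*} [Field K] {p : ℕ} [Fact p.Prime] [CharP K p]

lemma exists_unit_extract {f c : MvPolynomial σ K} {d : ℕ} (hf : f.IsHomogeneous d)
    (hc : c ∉ TT p f) (e₀ : ℕ) :
    ∃ e, e₀ ≤ e ∧ ∃ π : MvPolynomial σ K →+ MvPolynomial σ K, RootLinear (p ^ e) π ∧
      π (c * f ^ (p ^ e - 1)) = 1 := by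
  classical
  have hp : 1 < p := (Fact.out : p.Prime).one_lt
  rw [mem_TT] at hc
  push Not at hc
  obtain ⟨e, he, h⟩ := hc (max e₀ c.totalDegree)
  have hlt : c.totalDegree < p ^ e :=
    lt_of_le_of_lt (le_trans (le_max_right _ _) he) (Nat.lt_pow_self hp)
  rw [mem_Mq] at h
  push Not at h
  obtain ⟨α, hα, hne⟩ := h
  obtain ⟨θ, hθ, hθ1⟩ := exists_root_linear (p := p) e hne
  have hq : 0 < p ^ e := by positivity
  refine ⟨e, le_trans (le_max_left _ _) he, extract (p ^ e) hq α θ,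
    extract_rootLinear e hq hα hθ, ?_⟩
  have hfq : (f ^ (p ^ e - 1)).IsHomogeneous (d * (p ^ e - 1)) := hf.pow _
  have exi : ∀ m : σ →₀ ℕ, coeff m (c * f ^ (p ^ e - 1)) ≠ 0 →
      ∃ x : σ →₀ ℕ, x.degree ≤ c.totalDegree ∧ m.degree = x.degree + d * (p ^ e - 1) := by
    intro m hm
    rw [coeff_mul] at hm
    obtain ⟨x, hx, hx2⟩ := Finset.exists_ne_zero_of_sum_ne_zero hm
    rw [Finset.HasAntidiagonal.mem_antidiagonal] at hx
    have h1 : coeff x.1 c ≠ 0 := left_ne_zero_of_mul hx2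
    have h2 : coeff x.2 (f ^ (p ^ e - 1)) ≠ 0 := right_ne_zero_of_mul hx2
    refine ⟨x.1, ?_, ?_⟩
    · have := le_totalDegree (mem_support_iff.2 h1)
      rw [Finsupp.degree_apply]
      exact this
    · rw [← hx, map_add]
      congr 1
      by_contra hcon
      exact h2 (hfq.coeff_eq_zero hcon)
  apply MvPolynomial.ext
  intro δ
  rw [coeff_extract, coeff_one]
  by_cases hδ : 0 = δ
  · rw [if_pos hδ, ← hδ, smul_zero, add_zero, hθ1]
  · rw [if_neg hδ]
    have : coeff (α + p ^ e • δ) (c * f ^ (p ^ e - 1)) = 0 := by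
      by_contra hcon
      obtain ⟨x, hx1, hx2⟩ := exi _ hcon
      obtain ⟨y, hy1, hy2⟩ := exi _ hne
      rw [map_add, map_nsmul, hy2] at hx2
      have hδ' : 1 ≤ δ.degree := by
        rw [Nat.one_le_iff_ne_zero]
        intro h0
        apply hδ
        exact ((Finsupp.degree_eq_zero_iff δ).1 h0).symm
      have : p ^ e ≤ p ^ e • δ.degree := by
        rw [smul_eq_mul]
        exact Nat.le_mul_of_pos_right _ hδ'
      omega
    rw [this, map_zero]

lemma pow_mem_frobPower {R : Type*} [CommRing R] {I : Ideal R} {x : R} (hx : x ∈ I) (q : ℕ) :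
    x ^ q ∈ frobPower I q :=
  Ideal.subset_span ⟨x, hx, rfl⟩

lemma RootLinear.map_frobPower {q : ℕ} {π : MvPolynomial σ K →+ MvPolynomial σ K}
    (hπ : RootLinear q π) {J : Ideal (MvPolynomial σ K)} {φ : MvPolynomial σ K}
    (hφ : φ ∈ frobPower J q) : π φ ∈ J := by
  suffices h : ∀ a, π (a * φ) ∈ J by simpa using h 1
  refine Submodule.span_induction (p := fun φ _ => ∀ a, π (a * φ) ∈ J) ?_ ?_ ?_ ?_ hφ
  · rintro _ ⟨x, hx, rfl⟩ a
    rw [mul_comm, hπ]
    exact Ideal.mul_mem_right _ _ hx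
  · intro a; simp
  · intro x y _ _ hx hy a
    rw [mul_add, map_add]
    exact Ideal.add_mem _ (hx a) (hy a)
  · intro b x _ hx a
    rw [smul_eq_mul, ← mul_assoc]
    exact hx _

/-- If `T(f) ⊆ (f)` for a homogeneous `f`, then `K[x]/(f)` is F-regular. -/
theorem isFRegular_of_TT [Finite σ] {f : MvPolynomial σ K} {d : ℕ} (hf : f.IsHomogeneous d)
    (hd : d ≠ 0)
    (hT : TT p f ≤ Ideal.span {f}) : IsFRegular p (MvPolynomial σ K ⧸ Ideal.span {f}) := by
  classical
  have hp : 0 < p := (Fact.out : p.Prime).pos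
  have hf00 : constantCoeff f = 0 := by
    rw [constantCoeff_eq]
    apply hf.coeff_eq_zero
    rw [map_zero]
    exact Ne.symm hd
  have hntop : Ideal.span {f} ≠ ⊤ := by
    intro htop
    have h1 : (1 : MvPolynomial σ K) ∈ Ideal.span {f} := by rw [htop]; exact Submodule.mem_top
    obtain ⟨g, hg⟩ := Ideal.mem_span_singleton.1 h1
    have h2 := congrArg constantCoeff hg
    rw [map_one, map_mul, hf00, zero_mul] at h2
    exact one_ne_zero h2
  have hnt : Nontrivial (MvPolynomial σ K ⧸ Ideal.span {f}) := Ideal.Quotient.nontrivial_iff.2 hntop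
  refine ⟨inferInstance, charP_of_injective_algebraMap
    (algebraMap K (MvPolynomial σ K ⧸ Ideal.span {f})).injective p, ?_⟩
  intro W I x hx
  obtain ⟨c, hc, e₀, h⟩ := hx
  rcases subsingleton_or_nontrivial (Localization W) with hs | hn
  · rw [Subsingleton.elim x 0]; exact I.zero_mem
  obtain ⟨c0, w1, hc0⟩ := IsLocalization.exists_mk'_eq W c
  obtain ⟨x0, w2, hx0⟩ := IsLocalization.exists_mk'_eq W x
  obtain ⟨c1, rfl⟩ := Ideal.Quotient.mk_surjective c0
  obtain ⟨x1, rfl⟩ := Ideal.Quotient.mk_surjective x0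
  let mk := Ideal.Quotient.mk (Ideal.span {f})
  let loc := algebraMap (MvPolynomial σ K ⧸ Ideal.span {f}) (Localization W)
  have hcl : c * loc w1 = loc (mk c1) := by rw [← hc0]; exact IsLocalization.mk'_spec _ _ _
  have hxl : x * loc w2 = loc (mk x1) := by rw [← hx0]; exact IsLocalization.mk'_spec _ _ _
  have hu : ∀ w : W, IsUnit (loc (w : MvPolynomial σ K ⧸ Ideal.span {f})) :=
    fun w => IsLocalization.map_units _ w
  have hc1 : c1 ∉ Ideal.span {f} := by
    intro hcon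
    have h1 : mk c1 = 0 := Ideal.Quotient.eq_zero_iff_mem.2 hcon
    rw [h1, map_zero] at hcl
    have h2 : c = 0 := (hu w1).mul_left_eq_zero.1 hcl
    obtain ⟨P, hP⟩ := Ideal.nonempty_minimalPrimes (bot_ne_top (α := Ideal (Localization W)))
    apply hc P hP
    rw [h2]
    exact P.zero_mem
  obtain ⟨e, he, π, hπ, hπ1⟩ := exists_unit_extract hf (fun h => hc1 (hT h)) e₀
  have hmem := h e he
  set q := p ^ e with hq
  have hq0 : 0 < q := pow_pos hp e
  -- the contraction of `I`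
  let J : Ideal (MvPolynomial σ K) := (I.comap loc).comap mk
  have hfJ : f ∈ J := by
    change loc (mk f) ∈ I
    have : mk f = 0 := Ideal.Quotient.eq_zero_iff_mem.2 (Ideal.mem_span_singleton_self f)
    rw [this, map_zero]
    exact I.zero_mem
  -- membership in the extended ideal
  have hle : frobPower I q ≤ ((frobPower J q).map mk).map loc := by
    unfold frobPower
    rw [Ideal.span_le]
    rintro _ ⟨y, hy, rfl⟩
    obtain ⟨y0, w, hyw⟩ := IsLocalization.exists_mk'_eq W y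
    obtain ⟨y1, rfl⟩ := Ideal.Quotient.mk_surjective y0
    have hyl : y * loc w = loc (mk y1) := by rw [← hyw]; exact IsLocalization.mk'_spec _ _ _
    have hyJ : y1 ∈ J := by
      change loc (mk y1) ∈ I
      rw [← hyl]
      exact Ideal.mul_mem_right _ _ hy
    have h3 : loc (mk (y1 ^ q)) ∈ ((frobPower J q).map mk).map loc :=
      Ideal.mem_map_of_mem _ (Ideal.mem_map_of_mem _ (pow_mem_frobPower hyJ q))
    rw [map_pow, map_pow, ← hyl, mul_pow] at h3
    exact (Ideal.mul_unit_mem_iff_mem _ ((hu w).pow q)).1 h3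
  have h4 : loc (mk (c1 * x1 ^ q)) ∈ ((frobPower J q).map mk).map loc := by
    apply hle
    rw [map_mul, map_mul, map_pow, map_pow, ← hcl, ← hxl, mul_pow]
    have : c * loc ↑w1 * (x ^ q * loc ↑w2 ^ q) = (loc w1 * loc w2 ^ q) * (c * x ^ q) := by ring
    rw [this]
    exact Ideal.mul_mem_left _ _ hmem
  rw [IsLocalization.mem_map_algebraMap_iff W] at h4
  obtain ⟨⟨⟨b, hb⟩, w3⟩, h5⟩ := h4
  rw [← map_mul] at h5
  obtain ⟨w4, h6⟩ := (IsLocalization.eq_iff_exists W (Localization W)).1 h5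
  obtain ⟨b1, hb1, rfl⟩ := (Ideal.mem_map_iff_of_surjective mk Ideal.Quotient.mk_surjective).1 hb
  obtain ⟨v3, hv3⟩ := Ideal.Quotient.mk_surjective (w3 : MvPolynomial σ K ⧸ Ideal.span {f})
  obtain ⟨v4, hv4⟩ := Ideal.Quotient.mk_surjective (w4 : MvPolynomial σ K ⧸ Ideal.span {f})
  have h7 : mk (v4 * (c1 * x1 ^ q * v3)) = mk (v4 * b1) := by
    simp only [map_mul]
    change (mk v4) * (mk c1 * (mk (x1 ^ q)) * mk v3) = mk v4 * mk b1
    rw [show mk v3 = w3 from hv3, show mk v4 = w4 from hv4, ← map_mul]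
    exact h6
  obtain ⟨g, hg⟩ := Ideal.mem_span_singleton.1 (Ideal.Quotient.eq.1 h7)
  -- apply `π`
  set w := v4 * v3 with hw
  have h8 : (w * x1) ^ q * (c1 * f ^ (q - 1)) =
      w ^ (q - 1) * f ^ (q - 1) * (v4 * b1) + w ^ (q - 1) * g * f ^ q := by
    have e1 : v4 * (c1 * x1 ^ q * v3) = v4 * b1 + f * g := by
      rw [← hg]; ring
    have e2 : (w * x1) ^ q * (c1 * f ^ (q - 1)) =
        w ^ (q - 1) * f ^ (q - 1) * (v4 * (c1 * x1 ^ q * v3)) := by
      rw [mul_pow]
      have : w ^ q = w ^ (q - 1) * w := by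
        rw [← pow_succ, Nat.sub_add_cancel hq0]
      rw [this, hw]; ring
    rw [e2, e1]
    have : f ^ q = f ^ (q - 1) * f := by
      rw [← pow_succ, Nat.sub_add_cancel hq0]
    rw [this]; ring
  have h9 : w * x1 ∈ J := by
    have h10 : π ((w * x1) ^ q * (c1 * f ^ (q - 1))) = w * x1 := by
      rw [hπ, hπ1, mul_one]
    rw [← h10, h8]
    apply hπ.map_frobPower
    apply Ideal.add_mem
    · exact Ideal.mul_mem_left _ _ (Ideal.mul_mem_left _ _ hb1)
    · exact Ideal.mul_mem_left _ _ (pow_mem_frobPower hfJ q)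
  have h11 : loc (mk (w * x1)) ∈ I := h9
  have h12 : loc (mk (w * x1)) = (loc w4 * loc w3 * loc w2) * x := by
    rw [hw]
    simp only [map_mul]
    rw [show mk v3 = w3 from hv3, show mk v4 = w4 from hv4, ← hxl]
    ring
  rw [h12] at h11
  exact (Ideal.unit_mul_mem_iff_mem _ (((hu w4).mul (hu w3)).mul (hu w2))).1 h11

end Pool.Agent.FReg
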