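import Mathlib

/-!
# Tight closure, F-regular rings, and the polynomial `P(X)`
-/

namespace Pool.Agent.FReg

/-- The Frobenius power `I^{[q]}`: the ideal generated by the `q`-th powers of elements of `I`. -/
def frobPower {R : Type*} [CommRing R] (I : Ideal R) (q : ℕ) : Ideal R :=
  Ideal.span {y | ∃ x ∈ I, y = x ^ q}

/-- `x` lies in the tight closure of `I` (characteristic `p`): there is an element `c` in no
minimal prime of `R` with `c x ^ q ∈ I^{[q]}` for all large `q = p ^ e`. -/
def InTightClosure (p : ℕ) {R : Type*} [CommRing R] (I : Ideal R) (x : R) : Prop :=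
  ∃ c : R, (∀ P ∈ minimalPrimes R, c ∉ P) ∧
    ∃ e₀ : ℕ, ∀ e : ℕ, e₀ ≤ e → c * x ^ p ^ e ∈ frobPower I (p ^ e)

/-- `I` is tightly closed. -/
def IsTightlyClosed (p : ℕ) {R : Type*} [CommRing R] (I : Ideal R) : Prop :=
  ∀ x : R, InTightClosure p I x → x ∈ I

/-- `R` is F-regular (Hochster-Huneke): `R` is Noetherian of characteristic `p` and every ideal of
every localization of `R` is tightly closed. -/
def IsFRegular (p : ℕ) (R : Type*) [CommRing R] : Prop :=
  IsNoetherianRing R ∧ CharP R p ∧
    ∀ (W : Submonoid R) (I : Ideal (Localization W)), IsTightlyClosed p I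

/-- The matrix `D(X)` whose `k`-th column is the diagonal of `X ^ k`, `k = 0, …, n - 1`. -/
def diagPowers {R : Type*} [CommRing R] {n : ℕ} (X : Matrix (Fin n) (Fin n) R) :
    Matrix (Fin n) (Fin n) R :=
  Matrix.of fun i k => (X ^ (k : ℕ)) i i

/-- The polynomial `P(X) = det D(X)`, where `X` is the generic `n × n` matrix over `K`. -/
noncomputable def PX (n : ℕ) (K : Type*) [CommRing K] : MvPolynomial (Fin n × Fin n) K :=
  (diagPowers (Matrix.mvPolynomialX (Fin n) (Fin n) K)).det

end Pool.Agent.FReg
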