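import Pool.Agent.FReg.Defs

/-!
# Determinant lemmas
-/

namespace Pool.Agent.FReg

variable {R : Type*} [CommRing R] [Nontrivial R]

/-- `det [(A ^ (k + 1))_{ii}] = det A * det [(A ^ k)_{ii}]`. -/
lemma det_shift {m : ℕ} (A : Matrix (Fin (m + 1)) (Fin (m + 1)) R) :
    (Matrix.of fun i k : Fin (m + 1) => (A ^ ((k : ℕ) + 1)) i i).det =
      A.det * (diagPowers A).det := by
  classical
  set c : ℕ → R := fun l => A.charpoly.coeff l with hc
  let C : Matrix (Fin (m + 1)) (Fin (m + 1)) R := Matrix.of fun l k =>
    if k = Fin.last m then -(c l) else if (l : ℕ) = (k : ℕ) + 1 then 1 else 0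
  have hdeg : A.charpoly.natDegree = m + 1 := by
    rw [Matrix.charpoly_natDegree_eq_dim, Fintype.card_fin]
  have hCH : A ^ (m + 1) = ∑ l : Fin (m + 1), (-(c l)) • A ^ (l : ℕ) := by
    have h1 := Matrix.aeval_self_charpoly A
    rw [Polynomial.aeval_eq_sum_range, hdeg, Finset.sum_range_succ] at h1
    have h2 : A.charpoly.coeff (m + 1) = 1 := by
      have := A.charpoly_monic
      rw [Polynomial.Monic, Polynomial.leadingCoeff, hdeg] at this
      exact this
    rw [h2, one_smul, Finset.sum_range] at h1
    rw [eq_neg_of_add_eq_zero_right h1, ← Finset.sum_neg_distrib]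
    refine Finset.sum_congr rfl fun l _ => ?_
    rw [neg_smul]
  have hmul : (Matrix.of fun i k : Fin (m + 1) => (A ^ ((k : ℕ) + 1)) i i) = diagPowers A * C := by
    apply Matrix.ext
    intro i k
    rw [Matrix.of_apply, Matrix.mul_apply]
    by_cases hk : k = Fin.last m
    · subst hk
      rw [Fin.val_last, hCH, Matrix.sum_apply]
      refine Finset.sum_congr rfl fun l _ => ?_
      simp only [diagPowers, Matrix.of_apply, C, if_true, Matrix.smul_apply, smul_eq_mul]
      ring
    · have hk' : (k : ℕ) + 1 < m + 1 := by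
        have h1 := k.2
        have h2 : (k : ℕ) ≠ m := fun h => hk (Fin.ext h)
        omega
      rw [Finset.sum_eq_single (⟨(k : ℕ) + 1, hk'⟩ : Fin (m + 1))]
      · simp [diagPowers, C, hk]
      · intro b _ hb
        have : (b : ℕ) ≠ (k : ℕ) + 1 := fun h => hb (Fin.ext h)
        simp [C, hk, this]
      · intro h
        exact absurd (Finset.mem_univ _) h
  have hdetC : C.det = A.det := by
    rw [Matrix.det_succ_row_zero, Finset.sum_eq_single (Fin.last m)]
    · have hsub : C.submatrix Fin.succ (Fin.last m).succAbove = 1 := by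
        apply Matrix.ext
        intro i k
        rw [Matrix.submatrix_apply, Fin.succAbove_last, Matrix.one_apply]
        simp only [C, Matrix.of_apply]
        have h1 : (k.castSucc : Fin (m + 1)) ≠ Fin.last m := (Fin.castSucc_lt_last k).ne
        rw [if_neg h1]
        by_cases hik : i = k
        · subst hik
          simp
        · have h2 : ¬ ((i.succ : Fin (m + 1)) : ℕ) = ((k.castSucc : Fin (m + 1)) : ℕ) + 1 := by
            intro h
            apply hik
            apply Fin.ext
            simpa using h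
          rw [if_neg h2, if_neg hik]
      rw [hsub, Matrix.det_one, mul_one, Matrix.det_eq_sign_charpoly_coeff, Fintype.card_fin]
      simp only [C, Matrix.of_apply, if_true, Fin.val_last, Fin.val_zero, hc]
      ring
    · intro b _ hb
      have : ¬ ((0 : Fin (m + 1)) : ℕ) = (b : ℕ) + 1 := by simp
      simp [C, hb]
    · intro h
      exact absurd (Finset.mem_univ _) h
  rw [hmul, Matrix.det_mul, hdetC, mul_comm]

/-- `det (diagPowers (A ⊕ 0)) = ± det A * det (diagPowers A)`. -/
lemma det_diagPowers_pad {m : ℕ} (A : Matrix (Fin (m + 1)) (Fin (m + 1)) R)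
    (B : Matrix (Fin (m + 1 + 1)) (Fin (m + 1 + 1)) R)
    (hB : ∀ i j : Fin (m + 1), B i.castSucc j.castSucc = A i j)
    (hr : ∀ j, B (Fin.last (m + 1)) j = 0) :
    (diagPowers B).det = (-1) ^ (m + 1) * (A.det * (diagPowers A).det) := by
  classical
  have hlast : ∀ k : ℕ, (B ^ (k + 1)) (Fin.last (m + 1)) (Fin.last (m + 1)) = 0 := by
    intro k
    rw [pow_succ', Matrix.mul_apply]
    refine Finset.sum_eq_zero fun l _ => ?_
    rw [hr, zero_mul]
  have hpow : ∀ (k : ℕ) (i j : Fin (m + 1)), (B ^ k) i.castSucc j.castSucc = (A ^ k) i j := by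
    intro k
    induction k with
    | zero =>
      intro i j
      rw [pow_zero, pow_zero, Matrix.one_apply, Matrix.one_apply]
      simp
    | succ k ih =>
      intro i j
      rw [pow_succ, pow_succ, Matrix.mul_apply, Matrix.mul_apply, Fin.sum_univ_castSucc, hr,
        mul_zero, add_zero]
      refine Finset.sum_congr rfl fun l _ => ?_
      rw [ih, hB]
  rw [Matrix.det_succ_row _ (Fin.last (m + 1)), Finset.sum_eq_single 0]
  · have h1 : (diagPowers B) (Fin.last (m + 1)) 0 = 1 := by
      rw [diagPowers, Matrix.of_apply]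
      simp
    rw [h1, mul_one, Fin.val_last, Fin.val_zero, add_zero, ← det_shift]
    congr 2
    apply Matrix.ext
    intro i k
    rw [Matrix.submatrix_apply, Fin.succAbove_last, diagPowers, Matrix.of_apply, Matrix.of_apply,
      hpow, Fin.succAbove_zero, Fin.val_succ]
  · intro b _ hb
    obtain ⟨k, hk⟩ := Fin.exists_succ_eq.2 hb
    rw [diagPowers, Matrix.of_apply, ← hk, Fin.val_succ, hlast, mul_zero, zero_mul]
  · intro h
    exact absurd (Finset.mem_univ _) h

end Pool.Agent.FReg
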