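import Pool.Agent.FReg.Cartier

/-!
# The weight filtration on a polynomial ring
-/

namespace Pool.Agent.FReg

open MvPolynomial

variable {σ : Type*} {K : Type*} [Field K]

/-- Polynomials all of whose monomials have weight at least `k`. -/
def Fil (K : Type*) [Field K] (w : σ → ℕ) (k : ℕ) : Ideal (MvPolynomial σ K) where
  carrier := {φ | ∀ m : σ →₀ ℕ, Finsupp.weight w m < k → coeff m φ = 0}
  zero_mem' := by
    intro m _
    simp
  add_mem' := by
    intro a b ha hb m hm
    rw [coeff_add, ha m hm, hb m hm, add_zero]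
  smul_mem' := by
    classical
    intro c x hx m hm
    rw [smul_eq_mul, coeff_mul]
    refine Finset.sum_eq_zero fun y hy => ?_
    rw [Finset.HasAntidiagonal.mem_antidiagonal] at hy
    have : coeff y.2 x = 0 := by
      apply hx
      rw [← hy, map_add] at hm
      omega
    rw [this, mul_zero]

lemma mem_Fil {w : σ → ℕ} {k : ℕ} {φ : MvPolynomial σ K} :
    φ ∈ Fil K w k ↔ ∀ m : σ →₀ ℕ, Finsupp.weight w m < k → coeff m φ = 0 := Iff.rfl

lemma mem_Fil_zero {w : σ → ℕ} (φ : MvPolynomial σ K) : φ ∈ Fil K w 0 := by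
  intro m hm
  omega

lemma Fil_mono {w : σ → ℕ} {a b : ℕ} (h : a ≤ b) : Fil K w b ≤ Fil K w a :=
  fun _ hφ m hm => hφ m (by omega)

lemma Fil_mul {w : σ → ℕ} {a b : ℕ} {φ ψ : MvPolynomial σ K} (hφ : φ ∈ Fil K w a)
    (hψ : ψ ∈ Fil K w b) : φ * ψ ∈ Fil K w (a + b) := by
  classical
  intro m hm
  rw [coeff_mul]
  refine Finset.sum_eq_zero fun y hy => ?_
  rw [Finset.HasAntidiagonal.mem_antidiagonal] at hy
  rw [← hy, map_add] at hm
  by_cases h1 : Finsupp.weight w y.1 < a
  · rw [hφ _ h1, zero_mul]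
  · rw [hψ _ (by omega), mul_zero]

lemma Fil_pow {w : σ → ℕ} {a : ℕ} {φ : MvPolynomial σ K} (hφ : φ ∈ Fil K w a) (k : ℕ) :
    φ ^ k ∈ Fil K w (k * a) := by
  induction k with
  | zero => rw [zero_mul]; exact mem_Fil_zero _
  | succ k ih => rw [pow_succ, Nat.succ_mul]; exact Fil_mul ih hφ

lemma isWeightedHomogeneous_mem_Fil {w : σ → ℕ} {a : ℕ} {φ : MvPolynomial σ K}
    (hφ : IsWeightedHomogeneous w φ a) : φ ∈ Fil K w a := by
  intro m hm
  by_contra h
  have := hφ h
  omega

lemma sub_component_mem {w : σ → ℕ} {a : ℕ} {φ : MvPolynomial σ K} (hφ : φ ∈ Fil K w a) :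
    φ - weightedHomogeneousComponent w a φ ∈ Fil K w (a + 1) := by
  classical
  intro m hm
  rw [coeff_sub, coeff_weightedHomogeneousComponent]
  split_ifs with h
  · rw [sub_self]
  · rw [hφ m (by omega), sub_zero]

lemma component_eq_zero_of_mem {w : σ → ℕ} {a b : ℕ} (hab : a < b) {φ : MvPolynomial σ K}
    (hφ : φ ∈ Fil K w b) : weightedHomogeneousComponent w a φ = 0 := by
  classical
  apply MvPolynomial.ext
  intro m
  rw [coeff_weightedHomogeneousComponent, coeff_zero]
  split_ifs with h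
  · exact hφ m (by omega)
  · rfl

lemma component_mem {w : σ → ℕ} (a : ℕ) (φ : MvPolynomial σ K) :
    weightedHomogeneousComponent w a φ ∈ Fil K w a :=
  isWeightedHomogeneous_mem_Fil (weightedHomogeneousComponent_isWeightedHomogeneous _ _)

lemma component_mul {w : σ → ℕ} {a b : ℕ} {φ ψ : MvPolynomial σ K} (hφ : φ ∈ Fil K w a)
    (hψ : ψ ∈ Fil K w b) : weightedHomogeneousComponent w (a + b) (φ * ψ) =
      weightedHomogeneousComponent w a φ * weightedHomogeneousComponent w b ψ := by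
  set φ₀ := weightedHomogeneousComponent w a φ with hφ₀
  set ψ₀ := weightedHomogeneousComponent w b ψ with hψ₀
  have h1 : φ * ψ = φ₀ * ψ₀ + ((φ - φ₀) * ψ + φ₀ * (ψ - ψ₀)) := by ring
  have h2 : (φ - φ₀) * ψ + φ₀ * (ψ - ψ₀) ∈ Fil K w (a + b + 1) := by
    apply Ideal.add_mem
    · have := Fil_mul (sub_component_mem hφ) hψ
      rwa [show a + 1 + b = a + b + 1 by ring] at this
    · have h4 := Fil_mul (component_mem a φ) (sub_component_mem hψ)
      rw [← add_assoc] at h4
      exact h4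
  have h3 : IsWeightedHomogeneous w (φ₀ * ψ₀) (a + b) :=
    (weightedHomogeneousComponent_isWeightedHomogeneous _ _).mul
      (weightedHomogeneousComponent_isWeightedHomogeneous _ _)
  rw [h1, map_add, component_eq_zero_of_mem (Nat.lt_succ_self _) h2, add_zero]
  exact h3.weightedHomogeneousComponent_same

lemma component_pow {w : σ → ℕ} {a : ℕ} {φ : MvPolynomial σ K} (hφ : φ ∈ Fil K w a) (k : ℕ) :
    weightedHomogeneousComponent w (k * a) (φ ^ k) =
      (weightedHomogeneousComponent w a φ) ^ k := by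
  induction k with
  | zero =>
    rw [zero_mul, pow_zero, pow_zero]
    exact (isWeightedHomogeneous_one _ _).weightedHomogeneousComponent_same
  | succ k ih =>
    rw [pow_succ, Nat.succ_mul, component_mul (Fil_pow hφ k) hφ, ih, pow_succ]

lemma mem_Fil_succ {w : σ → ℕ} {a : ℕ} {φ : MvPolynomial σ K} (hφ : φ ∈ Fil K w a)
    (h0 : weightedHomogeneousComponent w a φ = 0) : φ ∈ Fil K w (a + 1) := by
  have := sub_component_mem hφ
  rwa [h0, sub_zero] at this

lemma Mq_component {w : σ → ℕ} {q : ℕ} {φ : MvPolynomial σ K} (hφ : φ ∈ Mq σ K q) (a : ℕ) :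
    weightedHomogeneousComponent w a φ ∈ Mq σ K q := by
  classical
  intro m hm
  rw [coeff_weightedHomogeneousComponent]
  split_ifs
  · exact hφ m hm
  · rfl

/-- If all weights are bounded by `B`, then `Fil (B k) ⊆ m ^ k`. -/
lemma Fil_le_pow [Finite σ] {w : σ → ℕ} {B : ℕ} (h0 : 0 < B) (hB : ∀ i, w i ≤ B) (k : ℕ) :
    Fil K w (B * k) ≤ idealOfVars σ K ^ k := by
  classical
  have := Fintype.ofFinite σ
  intro φ hφ
  rw [mem_pow_idealOfVars_iff']
  intro m hm
  apply hφ
  have h1 : Finsupp.weight w m ≤ B * m.degree := by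
    rw [Finsupp.weight_apply, Finsupp.sum_fintype _ _ (by simp), Finsupp.degree_eq_sum,
      Finset.mul_sum]
    refine Finset.sum_le_sum fun i _ => ?_
    rw [smul_eq_mul, mul_comm]
    exact Nat.mul_le_mul_right _ (hB i)
  calc Finsupp.weight w m ≤ B * m.degree := h1
    _ < B * k := Nat.mul_lt_mul_of_pos_left hm h0

/-- A divisor with nonzero constant term of a homogeneous polynomial is a unit. -/
lemma isUnit_of_dvd_homogeneous {f g : MvPolynomial σ K} {d : ℕ} (hf : f.IsHomogeneous d)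
    (hf0 : f ≠ 0) (hgf : g ∣ f) (hg : constantCoeff g ≠ 0) : IsUnit g := by
  classical
  obtain ⟨h, rfl⟩ := hgf
  have hg0 : g ≠ 0 := left_ne_zero_of_mul hf0
  have hh0 : h ≠ 0 := right_ne_zero_of_mul hf0
  -- the lowest degree of `h`
  have hex : ∃ k, h ∉ Fil K (1 : σ → ℕ) k := by
    obtain ⟨m, hm⟩ := MvPolynomial.ne_zero_iff.1 hh0
    refine ⟨Finsupp.weight (1 : σ → ℕ) m + 1, fun hcon => hm (hcon m (Nat.lt_succ_self _))⟩
  obtain ⟨a, ha1, ha2⟩ : ∃ a, h ∈ Fil K (1 : σ → ℕ) a ∧ h ∉ Fil K (1 : σ → ℕ) (a + 1) := by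
    have h1 := Nat.find_spec hex
    have h2 : Nat.find hex ≠ 0 := by
      intro h0
      rw [h0] at h1
      exact h1 (mem_Fil_zero h)
    refine ⟨Nat.find hex - 1, ?_, ?_⟩
    · by_contra hcon
      exact Nat.find_min hex (by omega) hcon
    · rwa [Nat.sub_add_cancel (by omega)]
  have hc0 : weightedHomogeneousComponent (1 : σ → ℕ) a h ≠ 0 :=
    fun h0 => ha2 (mem_Fil_succ ha1 h0)
  have h1 : weightedHomogeneousComponent (1 : σ → ℕ) (0 + a) (g * h) ≠ 0 := by
    rw [component_mul (mem_Fil_zero g) ha1]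
    refine mul_ne_zero ?_ hc0
    intro h2
    apply hg
    have h3 := congrArg (coeff 0) h2
    rw [coeff_weightedHomogeneousComponent, map_zero, if_pos rfl, coeff_zero] at h3
    exact h3
  rw [zero_add] at h1
  have had : a = d := by
    by_contra hcon
    exact h1 (IsWeightedHomogeneous.weightedHomogeneousComponent_ne a
      (show IsWeightedHomogeneous (1 : σ → ℕ) (g * h) d from hf) hcon)
  subst had
  -- degrees
  have h2 : a ≤ h.totalDegree := by
    obtain ⟨m, hm⟩ := MvPolynomial.ne_zero_iff.1 hh0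
    have h3 : a ≤ Finsupp.weight (1 : σ → ℕ) m := by
      by_contra hcon
      exact hm (ha1 m (by omega))
    have h4 := le_totalDegree (mem_support_iff.2 hm)
    have h5 : Finsupp.weight (1 : σ → ℕ) m = m.degree := by
      rw [Finsupp.degree_eq_weight_one]; rfl
    rw [h5, Finsupp.degree_apply] at h3
    exact le_trans h3 h4
  have h3 := totalDegree_mul_of_isDomain hg0 hh0
  rw [hf.totalDegree hf0] at h3
  have h4 : g.totalDegree = 0 := by omega
  rw [totalDegree_eq_zero_iff_eq_C] at h4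
  rw [h4]
  refine IsUnit.map C ?_
  exact isUnit_iff_ne_zero.2 hg

end Pool.Agent.FReg
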