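import Pool.Agent.FReg.AtN
import Pool.Agent.FReg.Criterion

/-!
# The lowest form of `P(X)` at the regular nilpotent matrix, and F-regularity
-/

namespace Pool.Agent.FReg

open MvPolynomial

variable {K : Type*} [Field K]

lemma det_of_first_column_one {R : Type*} [CommRing R] {m : ℕ}
    (D : Matrix (Fin (m + 1)) (Fin (m + 1)) R) (hD : ∀ i, D i 0 = 1) :
    D.det = (Matrix.of fun i k : Fin m => D i.succ k.succ - D i.castSucc k.succ).det := by
  classical
  let B : Matrix (Fin (m + 1)) (Fin (m + 1)) R :=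
    Matrix.of (Fin.cases (D 0) fun i j => D i.succ j - D i.castSucc j)
  have h1 : D.det = B.det := by
    refine Matrix.det_eq_of_forall_row_eq_smul_add_pred (fun _ => 1) (fun j => rfl) ?_
    intro i j
    change D i.succ j = (D i.succ j - D i.castSucc j) + 1 * D i.castSucc j
    ring
  rw [h1, Matrix.det_succ_column_zero, Finset.sum_eq_single 0]
  · have h2 : B 0 0 = 1 := hD 0
    rw [h2, Fin.val_zero, pow_zero, one_mul, one_mul, Fin.succAbove_zero]
    rfl
  · intro b _ hb
    obtain ⟨i, rfl⟩ := Fin.exists_succ_eq.2 hb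
    have h2 : B i.succ 0 = 0 := by
      change D i.succ 0 - D i.castSucc 0 = 0
      rw [hD, hD, sub_self]
    rw [h2, mul_zero, zero_mul]
  · intro h
    exact absurd (Finset.mem_univ _) h

lemma shift_PX (t : ℕ) :
    shift (nilPt (t + 2) K) (PX (t + 2) K) = (diagPowers (XN K t)).det := by
  have h1 := map_det_diagPowers ((shiftHom (nilPt (t + 2) K) :
    MvPolynomial (Fin (t + 2) × Fin (t + 2)) K →ₐ[K] _) :
    MvPolynomial (Fin (t + 2) × Fin (t + 2)) K →+* MvPolynomial (Fin (t + 2) × Fin (t + 2)) K)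
    (Matrix.mvPolynomialX (Fin (t + 2)) (Fin (t + 2)) K)
  have h2 : (Matrix.mvPolynomialX (Fin (t + 2)) (Fin (t + 2)) K).map
      ((shiftHom (nilPt (t + 2) K) : MvPolynomial (Fin (t + 2) × Fin (t + 2)) K →ₐ[K] _) :
      MvPolynomial (Fin (t + 2) × Fin (t + 2)) K →+* MvPolynomial (Fin (t + 2) × Fin (t + 2)) K) =
      XN K t := by
    apply Matrix.ext
    intro i j
    rw [Matrix.map_apply, Matrix.mvPolynomialX_apply, XN, Matrix.of_apply]
    exact shiftHom_X _ _
  rw [h2] at h1
  exact h1

/-- The first row of the leading matrix. -/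
noncomputable def rr (K : Type*) [Field K] (t k : ℕ) :
    MvPolynomial (Fin (t + 2) × Fin (t + 2)) K :=
  (if k = 0 then UU K t 0 else 0) - VV K t (k + 1)

/-- The leading matrix. -/
noncomputable def leadMat (K : Type*) [Field K] (t : ℕ) :
    Matrix (Fin (t + 1)) (Fin (t + 1)) (MvPolynomial (Fin (t + 2) × Fin (t + 2)) K) :=
  Matrix.of fun i k => if (i : ℕ) = 0 then rr K t k else
      (if (i : ℕ) = (k : ℕ) then UU K t k else 0) +
        (if (i : ℕ) = (k : ℕ) + 1 then VV K t (k + 1) else 0)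

lemma det_leadMat (t : ℕ) :
    (leadMat K t).det = frec (UU K t) (fun k => VV K t (k + 1)) (rr K t) t := by
  rw [leadMat]
  exact det_bidiag (UU K t) (fun k => VV K t (k + 1)) (rr K t) t

lemma diag_congr (t : ℕ) (i k : Fin (t + 2)) (hk : (k : ℕ) ≠ 0) :
    diagPowers (XN K t) i k - TT2 K t k i i ∈ Fil K (cost t) (2 * (t + 1)) := by
  have h1 := XN_pow (K := K) t k i i
  rw [if_neg (by omega), zero_add] at h1
  exact h1

lemma minor_congr (t : ℕ) (i k : Fin (t + 1)) :
    (Matrix.of fun i k : Fin (t + 1) => diagPowers (XN K t) i.succ k.succ -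
      diagPowers (XN K t) i.castSucc k.succ) i k - (-(leadMat K t)) i k ∈
      Fil K (cost t) (2 * (t + 1)) := by
  have h1 := diag_congr (K := K) t i.succ k.succ (by simp)
  have h2 := diag_congr (K := K) t i.castSucc k.succ (by simp)
  have h3 := Ideal.sub_mem _ h1 h2
  have hi := i.2
  have hk := k.2
  have h4 : TT2 K t (k.succ : Fin (t + 2)) (i.succ : Fin (t + 2)) (i.succ : Fin (t + 2)) -
      TT2 K t (k.succ : Fin (t + 2)) (i.castSucc : Fin (t + 2)) (i.castSucc : Fin (t + 2)) =
      (-(leadMat K t)) i k := by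
    rw [Matrix.neg_apply, leadMat, Matrix.of_apply, TT2, TT2, Fin.val_succ, Fin.val_succ,
      Fin.val_castSucc]
    have e1 : (i : ℕ) + 1 + ((k : ℕ) + 1) - 1 - ((i : ℕ) + 1) = (k : ℕ) := by omega
    have e2 : (i : ℕ) + 1 + ((k : ℕ) + 1) - ((i : ℕ) + 1) = (k : ℕ) + 1 := by omega
    have e3 : (i : ℕ) + ((k : ℕ) + 1) - 1 - (i : ℕ) = (k : ℕ) := by omega
    have e4 : (i : ℕ) + ((k : ℕ) + 1) - (i : ℕ) = (k : ℕ) + 1 := by omega
    rw [e1, e2, e3, e4]
    by_cases hi0 : (i : ℕ) = 0
    · rw [if_pos hi0, rr]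
      by_cases hk0 : (k : ℕ) = 0
      · rw [if_pos hk0, if_neg (by omega), if_pos (by omega), if_pos (by omega),
          if_neg (by omega), hk0]
        ring
      · rw [if_neg hk0, if_pos (by omega), if_pos (by omega), if_pos (by omega),
          if_neg (by omega)]
        ring
    · rw [if_neg hi0]
      by_cases h5 : (i : ℕ) = (k : ℕ)
      · rw [if_pos h5, if_neg (by omega), if_pos (by omega), if_pos (by omega),
          if_pos (by omega), if_neg (by omega)]
        ring
      · by_cases h6 : (i : ℕ) = (k : ℕ) + 1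
        · rw [if_neg h5, if_pos h6, if_neg (by omega), if_neg (by omega), if_neg (by omega),
            if_pos (by omega)]
          ring
        · rw [if_neg h5, if_neg h6]
          by_cases h7 : (i : ℕ) < (k : ℕ)
          · rw [if_pos (by omega), if_pos (by omega), if_pos (by omega), if_pos (by omega)]
            ring
          · rw [if_neg (by omega), if_neg (by omega), if_neg (by omega), if_neg (by omega)]
            ring
  rw [← h4, Matrix.of_apply]
  have h5 : ∀ A B C D : MvPolynomial (Fin (t + 2) × Fin (t + 2)) K,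
      A - C - (B - D) = A - B - (C - D) := by intro A B C D; ring
  rwa [h5] at h3

lemma ite_mem {σ : Type*} {I : Ideal (MvPolynomial σ K)} {c : Prop} [Decidable c]
    {x : MvPolynomial σ K} (hx : x ∈ I) : (if c then x else 0) ∈ I := by
  split_ifs
  · exact hx
  · exact I.zero_mem

lemma leadMat_mem (t : ℕ) (i k : Fin (t + 1)) : (-(leadMat K t)) i k ∈ Fil K (cost t) (t + 1) := by
  rw [Matrix.neg_apply, leadMat, Matrix.of_apply, rr]
  apply neg_mem
  by_cases h : (i : ℕ) = 0
  · rw [if_pos h]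
    exact Ideal.sub_mem _ (ite_mem (UU_mem _ _)) (VV_mem _ _)
  · rw [if_neg h]
    exact Ideal.add_mem _ (ite_mem (UU_mem _ _)) (ite_mem (VV_mem _ _))

lemma frec_congr_aux (t : ℕ) : ∀ s : ℕ, s < t →
    frec (UU K t) (fun k => VV K t (k + 1)) (rr K t) s - ∏ l ∈ Finset.range (s + 1), UU K t l ∈
      Fil K (cost t) ((s + 1) * (t + 2)) := by
  intro s
  induction s with
  | zero =>
    intro hs
    rw [frec, rr, if_pos rfl, zero_add, Finset.prod_range_one, sub_sub_cancel_left, one_mul]
    exact neg_mem (VV_mem' t 1 (by omega))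
  | succ s ih =>
    intro hs
    rw [frec, rr, if_neg (by omega), zero_sub]
    have h1 := Fil_mul (UU_mem' (K := K) t (s + 1) (by omega)) (ih (by omega))
    have h2 : ∏ l ∈ Finset.range (s + 1 + 1), VV K t (l + 1) ∈
        Fil K (cost t) ((s + 1 + 1) * (t + 2)) := by
      have := prod_mem_Fil (w := cost t) (a := t + 2) (Finset.range (s + 1 + 1))
        (x := fun l => VV K t (l + 1)) (fun l hl => by
          rw [Finset.mem_range] at hl
          exact VV_mem' t (l + 1) (by omega))
      rwa [Finset.card_range] at this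
    rw [show t + 2 + (s + 1) * (t + 2) = (s + 1 + 1) * (t + 2) by ring] at h1
    have h3 := Ideal.sub_mem _ h1 (Ideal.mul_mem_left _ ((-1) ^ (s + 1)) h2)
    have h4 : UU K t (s + 1) * frec (UU K t) (fun k => VV K t (k + 1)) (rr K t) s +
        (-1) ^ (s + 1) * -VV K t (s + 1 + 1) * ∏ l ∈ Finset.range (s + 1), VV K t (l + 1) -
        ∏ l ∈ Finset.range (s + 1 + 1), UU K t l =
        UU K t (s + 1) * (frec (UU K t) (fun k => VV K t (k + 1)) (rr K t) s -
          ∏ l ∈ Finset.range (s + 1), UU K t l) -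
        (-1) ^ (s + 1) * ∏ l ∈ Finset.range (s + 1 + 1), VV K t (l + 1) := by
      rw [Finset.prod_range_succ _ (s + 1), Finset.prod_range_succ _ (s + 1)]
      ring
    rw [h4]
    exact h3

lemma frec_congr (t : ℕ) :
    frec (UU K t) (fun k => VV K t (k + 1)) (rr K t) t -
      (∏ l ∈ Finset.range (t + 1), UU K t l -
        (-1) ^ t * ∏ l ∈ Finset.range (t + 1), VV K t (l + 1)) ∈
      Fil K (cost t) ((t + 1) * (t + 2)) := by
  rcases t with _ | t
  · rw [frec, rr, if_pos rfl]
    simp
  · rw [frec, rr, if_neg (by omega), zero_sub]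
    have h1 := Fil_mul (UU_mem' (K := K) (t + 1) (t + 1) (by omega))
      (frec_congr_aux (K := K) (t + 1) t (by omega))
    rw [show t + 1 + 2 + (t + 1) * (t + 1 + 2) = (t + 1 + 1) * (t + 1 + 2) by ring] at h1
    have h4 : UU K (t + 1) (t + 1) *
        frec (UU K (t + 1)) (fun k => VV K (t + 1) (k + 1)) (rr K (t + 1)) t +
        (-1) ^ (t + 1) * -VV K (t + 1) (t + 1 + 1) *
          ∏ l ∈ Finset.range (t + 1), VV K (t + 1) (l + 1) -
        (∏ l ∈ Finset.range (t + 1 + 1), UU K (t + 1) l -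
          (-1) ^ (t + 1) * ∏ l ∈ Finset.range (t + 1 + 1), VV K (t + 1) (l + 1)) =
        UU K (t + 1) (t + 1) *
          (frec (UU K (t + 1)) (fun k => VV K (t + 1) (k + 1)) (rr K (t + 1)) t -
            ∏ l ∈ Finset.range (t + 1), UU K (t + 1) l) := by
      rw [Finset.prod_range_succ _ (t + 1), Finset.prod_range_succ _ (t + 1)]
      ring
    rw [h4]
    exact h1

lemma shift_PX_congr (t : ℕ) :
    shift (nilPt (t + 2) K) (PX (t + 2) K) -
      ((-1) ^ (t + 1) * ∏ l ∈ Finset.range (t + 1), UU K t l +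
        ∏ l ∈ Finset.range (t + 1), VV K t (l + 1)) ∈
      Fil K (cost t) ((t + 1) * (t + 2)) := by
  rw [shift_PX, det_of_first_column_one _ (fun i => by
    rw [diagPowers, Matrix.of_apply, Fin.val_zero, pow_zero, Matrix.one_apply_eq])]
  have hB : ∀ i j, (-(leadMat K t)) i j ∈ Fil K (cost t) (t + 1) := leadMat_mem t
  have hA : ∀ i j, (Matrix.of fun i k : Fin (t + 1) => diagPowers (XN K t) i.succ k.succ -
      diagPowers (XN K t) i.castSucc k.succ) i j ∈ Fil K (cost t) (t + 1) := by
    intro i j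
    have h1 := Fil_mono (K := K) (w := cost t) (show t + 1 ≤ 2 * (t + 1) by omega)
      (minor_congr (K := K) t i j)
    have h2 := Ideal.add_mem _ h1 (hB i j)
    rwa [sub_add_cancel] at h2
  have h3 := det_sub_det_mem hA hB (minor_congr t)
  rw [Matrix.det_neg, Fintype.card_fin, det_leadMat] at h3
  have h4 := Ideal.mul_mem_left _ ((-1) ^ (t + 1)) (frec_congr (K := K) t)
  rw [show (t + 1 + 1) * (t + 1) = (t + 1) * (t + 2) by ring] at h3
  have h5 := Ideal.add_mem _ h3 h4
  have h6 : ∀ A B C D : MvPolynomial (Fin (t + 2) × Fin (t + 2)) K,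
      A - (-1) ^ (t + 1) * B + (-1) ^ (t + 1) * (B - (C - (-1) ^ t * D)) =
      A - ((-1) ^ (t + 1) * C + D) := by
    intro A B C D
    have h7 : ((-1) ^ t : MvPolynomial (Fin (t + 2) × Fin (t + 2)) K) * (-1) ^ t = 1 := by
      rw [← mul_pow]
      simp
    have h8 : A - (-1) ^ (t + 1) * B + (-1) ^ (t + 1) * (B - (C - (-1) ^ t * D)) =
        A - ((-1) ^ (t + 1) * C + ((-1) ^ t * (-1) ^ t) * D) := by ring
    rw [h8, h7, one_mul]
  rwa [h6] at h5

/-- The monomial of the product of the first column variables. -/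
noncomputable def uMon (t : ℕ) : Fin (t + 2) × Fin (t + 2) →₀ ℕ :=
  ∑ l : Fin (t + 1), Finsupp.single (l.castSucc, 0) 1

/-- The monomial of the product of the second column variables. -/
noncomputable def vMon (t : ℕ) : Fin (t + 2) × Fin (t + 2) →₀ ℕ :=
  ∑ l : Fin (t + 1), Finsupp.single (l.succ, 1) 1

lemma prod_UU (t : ℕ) : ∏ l ∈ Finset.range (t + 1), UU K t l = monomial (uMon t) 1 := by
  rw [Finset.prod_range, uMon, monomial_sum_one]
  refine Finset.prod_congr rfl fun l _ => ?_
  rw [UU, dif_pos l.2]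
  rfl

lemma prod_VV (t : ℕ) : ∏ l ∈ Finset.range (t + 1), VV K t (l + 1) = monomial (vMon t) 1 := by
  rw [Finset.prod_range, vMon, monomial_sum_one]
  refine Finset.prod_congr rfl fun l _ => ?_
  rw [VV, dif_pos ⟨by omega, by omega⟩]
  rfl

lemma uMon_apply (t : ℕ) (x : Fin (t + 2) × Fin (t + 2)) :
    uMon t x = if x.2 = 0 ∧ x.1 ≠ Fin.last (t + 1) then 1 else 0 := by
  classical
  rw [uMon, Finsupp.finsetSum_apply]
  split_ifs with h
  · obtain ⟨l, hl⟩ := Fin.exists_castSucc_eq.2 h.2
    rw [Finset.sum_eq_single l]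
    · rw [Finsupp.single_apply, if_pos]
      exact Prod.ext hl h.1.symm
    · intro b _ hb
      rw [Finsupp.single_apply, if_neg]
      intro h1
      apply hb
      have h2 := congrArg Prod.fst h1
      simp only at h2
      rw [← hl] at h2
      exact Fin.castSucc_injective _ h2
    · intro h1
      exact absurd (Finset.mem_univ _) h1
  · refine Finset.sum_eq_zero fun b _ => ?_
    rw [Finsupp.single_apply, if_neg]
    intro h1
    apply h
    rw [← h1]
    exact ⟨rfl, (Fin.castSucc_lt_last b).ne⟩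

lemma vMon_apply (t : ℕ) (x : Fin (t + 2) × Fin (t + 2)) :
    vMon t x = if x.2 = 1 ∧ x.1 ≠ 0 then 1 else 0 := by
  classical
  rw [vMon, Finsupp.finsetSum_apply]
  split_ifs with h
  · obtain ⟨l, hl⟩ := Fin.exists_succ_eq.2 h.2
    rw [Finset.sum_eq_single l]
    · rw [Finsupp.single_apply, if_pos]
      exact Prod.ext hl h.1.symm
    · intro b _ hb
      rw [Finsupp.single_apply, if_neg]
      intro h1
      apply hb
      have h2 := congrArg Prod.fst h1
      simp only at h2
      rw [← hl] at h2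
      exact Fin.succ_injective _ h2
    · intro h1
      exact absurd (Finset.mem_univ _) h1
  · refine Finset.sum_eq_zero fun b _ => ?_
    rw [Finsupp.single_apply, if_neg]
    intro h1
    apply h
    rw [← h1]
    exact ⟨rfl, Fin.succ_ne_zero b⟩

lemma weight_uMon (t : ℕ) : Finsupp.weight (cost t) (uMon t) + 1 = (t + 1) * (t + 2) := by
  rw [uMon, map_sum, Fin.sum_univ_succ]
  have h1 : ∀ l : Fin t, Finsupp.weight (cost t) (Finsupp.single (l.succ.castSucc, 0) 1) =
      t + 2 := by
    intro l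
    have := l.2
    rw [Finsupp.weight_single, one_smul, cost, if_pos ⟨rfl, by simp⟩, if_neg (by simp)]
  have h2 : Finsupp.weight (cost t) (Finsupp.single (((0 : Fin (t + 1)).castSucc :
      Fin (t + 2)), (0 : Fin (t + 2))) 1) = t + 1 := by
    rw [Finsupp.weight_single, one_smul, cost, if_pos ⟨rfl, by simp⟩, if_pos (by simp)]
  rw [h2]
  simp only [h1]
  rw [Finset.sum_const, Finset.card_univ, Fintype.card_fin, smul_eq_mul]
  ring

lemma weight_vMon (t : ℕ) : Finsupp.weight (cost t) (vMon t) + 1 = (t + 1) * (t + 2) := by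
  rw [vMon, map_sum, Fin.sum_univ_castSucc]
  have h1 : ∀ l : Fin t, Finsupp.weight (cost t) (Finsupp.single (l.castSucc.succ, 1) 1) =
      t + 2 := by
    intro l
    have := l.2
    rw [Finsupp.weight_single, one_smul, cost, if_neg (by simp), if_pos ⟨by simp, by simp⟩,
      if_neg]
    simp only [Fin.val_succ, Fin.val_castSucc]
    omega
  have h2 : Finsupp.weight (cost t) (Finsupp.single (((Fin.last t).succ :
      Fin (t + 2)), (1 : Fin (t + 2))) 1) = t + 1 := by
    rw [Finsupp.weight_single, one_smul, cost, if_neg (by simp), if_pos ⟨by simp, by simp⟩,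
      if_pos (by simp)]
  rw [h2]
  simp only [h1]
  rw [Finset.sum_const, Finset.card_univ, Fintype.card_fin, smul_eq_mul]
  ring

variable (K) in
/-- `K[X]/(P(X))` is F-regular. -/
theorem isFRegular_PX (t p : ℕ) [Fact p.Prime] [CharP K p] :
    IsFRegular p (MvPolynomial (Fin (t + 2) × Fin (t + 2)) K ⧸ Ideal.span {PX (t + 2) K}) := by
  classical
  have hdeg : 0 < ∑ k : Fin (t + 2), (k : ℕ) := by
    have h1 := Finset.single_le_sum (f := fun k : Fin (t + 2) => (k : ℕ))
      (fun _ _ => Nat.zero_le _) (Finset.mem_univ (1 : Fin (t + 2)))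
    have h2 : ((1 : Fin (t + 2)) : ℕ) = 1 := by simp
    omega
  have hne : PX (t + 2) K ≠ 0 := by
    obtain ⟨μ, -, -, hμ⟩ := exists_mu (K := K) (0 : Fin (t + 2))
    intro h
    have := hμ 1
    rw [pow_one, h, coeff_zero] at this
    exact this rfl
  have hu1 := weight_uMon t
  have hv1 := weight_vMon t
  apply isFRegular_of_TT (PX_isHomogeneous (t + 2)) hdeg.ne'
  refine TT_le_span_of_local (PX_isHomogeneous (t + 2)) hdeg hne
    (N := nilPt (t + 2) K) (eval_nilPt (by omega)) (w := cost t)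
    (D := (t + 1) * (t + 2) - 1) (u := uMon t) (v := vMon t) (a := (-1) ^ (t + 1)) (b := 1)
    (pow_ne_zero _ (neg_ne_zero.2 one_ne_zero)) one_ne_zero (i₀ := (0, 0)) ?_ ?_ ?_ ?_ ?_ ?_ ?_ ?_
  · rw [uMon_apply, if_pos ⟨rfl, (Fin.last_pos).ne⟩]
  · intro i
    rw [uMon_apply]
    split_ifs <;> omega
  · intro i
    rw [vMon_apply]
    split_ifs <;> omega
  · intro i
    rw [uMon_apply, vMon_apply]
    by_cases h : i.2 = 0
    · right
      rw [if_neg]
      rintro ⟨h1, _⟩
      rw [h] at h1
      exact absurd h1 (by simp)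
    · left
      rw [if_neg]
      rintro ⟨h1, _⟩
      exact h h1
  · intro h
    have h1 := vMon_apply t (1, 1)
    rw [h, if_pos ⟨rfl, one_ne_zero⟩] at h1
    exact zero_ne_one h1
  · omega
  · omega
  · have h1 := shift_PX_congr (K := K) t
    rw [prod_UU, prod_VV] at h1
    have h2 : (-1 : MvPolynomial (Fin (t + 2) × Fin (t + 2)) K) ^ (t + 1) * monomial (uMon t) 1 =
        monomial (uMon t) ((-1) ^ (t + 1)) := by
      have h3 : (-1 : MvPolynomial (Fin (t + 2) × Fin (t + 2)) K) ^ (t + 1) =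
          C ((-1) ^ (t + 1)) := by
        rw [map_pow, map_neg, map_one]
      rw [h3, C_mul_monomial, mul_one]
    rw [h2] at h1
    have h4 : (t + 1) * (t + 2) - 1 + 1 = (t + 1) * (t + 2) := by
      have : 0 < (t + 1) * (t + 2) := by positivity
      omega
    rw [h4]
    exact h1

end Pool.Agent.FReg
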